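import Pool.Agent.helper69.SLG.Rng

set_option autoImplicit false

/-!
# The congruence for the product over all conjugates, prime power exponents (helper69)
-/

namespace Pool.Agent.helper69.SLG

open Finset Polynomial Pool.Agent.helper79.SL Pool.Agent.helper69.SLR

section main

variable {R O : Type*} [CommRing R] [IsDedekindDomain R] [CommRing O] [IsDedekindDomain O]
  [Algebra R O] [CharZero R]

/-- The ideal theoretic heart: one factor `p` for the whole family of conjugates. -/
theorem mem_rel (p n k N e : ℕ) (hp : p.Prime) (hN : N = p ^ (n + k))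
    (he : e = p ^ k)
    (sR : R ≃+* R) (s : O ≃+* O) (hs : ∀ c : R, s (algebraMap R O c) = algebraMap R O (sR c))
    (hcong : ∀ c : R, (p : R) ∣ c ^ N - (sR c) ^ e)
    {ι : Type*} [Fintype ι] (a : ι → O) (b : O) (hb : b ≠ 0) (P : R[X])
    (hP : P.map (algebraMap R O) = ∏ j, (C b * X - C (a j))) (j0 : ι) :
    ∏ j, (a j0 ^ N * (s b) ^ e - b ^ N * (s (a j)) ^ e) ∈ Ideal.span {(p : O)} *
      ((∏ j, (Ideal.span {a j, b}).map (s : O →+* O)) ^ e *
        (Ideal.span {a j0, b}) ^ (N * Fintype.card ι)) := by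
  classical
  have hN0 : 0 < N := by rw [hN]; exact pow_pos hp.pos _
  have he0 : 0 < e := by rw [he]; exact pow_pos hp.pos _
  have hNe : N = p ^ n * e := by rw [hN, he, pow_add]
  set d := Fintype.card ι with hd
  set f : R →+* O := algebraMap R O with hf
  set I : Ideal O := Ideal.span {a j0, b} with hI
  set J : Ideal O := ∏ j, (Ideal.span {a j, b}).map (s : O →+* O) with hJ
  set PO : Ideal O := Ideal.span {(p : O)} with hPO
  set PK : Ideal R := Ideal.span {(p : R)} with hPK
  set CK : Ideal R := Ideal.span (Set.range P.coeff) with hCK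
  set Cc : Ideal O := CK.map f with hCc
  set U : O := ∏ j, (a j0 ^ N * (s b) ^ e - b ^ N * (s (a j)) ^ e) with hU
  have hPmap : PK.map f = PO := by
    rw [hPK, Ideal.map_span, Set.image_singleton, map_natCast]
  have hcoef : ∀ i, f (P.coeff i) = (∏ j, (C b * X - C (a j))).coeff i := by
    intro i
    rw [← hP, coeff_map]
  -- the coefficients
  have hCle : Cc ≤ ∏ j, Ideal.span {a j, b} := by
    rw [hCc, Ideal.map_le_iff_le_comap, hCK, Ideal.span_le]
    rintro _ ⟨i, rfl⟩
    show f (P.coeff i) ∈ ∏ j, Ideal.span {a j, b}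
    rw [hcoef]
    exact coeff_prod_mem Finset.univ a (fun _ => b) i
  have hmapprod : (∏ j, Ideal.span {a j, b}).map (s : O →+* O) = J := by
    rw [hJ]
    exact map_prod (Ideal.mapHom (s : O →+* O)) _ _
  have hCs : Cc.map (s : O →+* O) ≤ J := by
    rw [← hmapprod]
    exact Ideal.map_mono hCle
  have hcK : ∀ i, P.coeff i ∈ CK := fun i => Ideal.subset_span ⟨i, rfl⟩
  have hc : ∀ i, f (P.coeff i) ∈ Cc := fun i => Ideal.mem_map_of_mem f (hcK i)
  have hsJ : ∀ z ∈ Cc, s z ∈ J := fun z hz => hCs (Ideal.mem_map_of_mem (s : O →+* O) hz)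
  have hP0 : P ≠ 0 := by
    rintro rfl
    rw [Polynomial.map_zero] at hP
    have h1 := Finset.prod_eq_zero_iff.1 hP.symm
    obtain ⟨j, -, hj⟩ := h1
    have h2 := congrArg (fun q : O[X] => q.coeff 1) hj
    simp [coeff_C] at h2
    exact hb h2
  have hCK0 : CK ≠ 0 := by
    intro h
    apply hP0
    ext i
    have h1 := hcK i
    rw [h] at h1
    simpa using h1
  have hfinj : Cc ≠ 0 := by
    intro h
    have h1 : P.map f = 0 := by
      ext i
      have h2 := hc i
      rw [h] at h2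
      rw [coeff_map]
      simpa using h2
    rw [hP] at h1
    obtain ⟨j, -, hj⟩ := Finset.prod_eq_zero_iff.1 h1
    have h2 := congrArg (fun q : O[X] => q.coeff 1) hj
    simp [coeff_C] at h2
    exact hb h2
  have hPK0 : PK ≠ 0 := by
    rw [hPK, Ideal.zero_eq_bot, Ne, Ideal.span_singleton_eq_bot]
    exact_mod_cast hp.ne_zero
  obtain ⟨t, ht⟩ := IsDedekindDomain.exists_sup_span_eq (Ideal.mul_le_right : PK * CK ≤ CK)
    (mul_ne_zero hPK0 hCK0)
  have htK : t ∈ CK := by
    rw [← ht]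
    exact Ideal.mem_sup_right (Ideal.mem_span_singleton_self t)
  have htC : f t ∈ Cc := Ideal.mem_map_of_mem f htK
  have hmapPC : ∀ z ∈ PK * CK, f z ∈ PO * Cc := by
    intro z hz
    have h1 := Ideal.mem_map_of_mem f hz
    rwa [Ideal.map_mul, hPmap] at h1
  have key : ∀ i, ∃ u : R, P.coeff i - u * t ∈ PK * CK := by
    intro i
    have h1 := hcK i
    rw [← ht] at h1
    obtain ⟨z, hz, w, hw, hzw⟩ := Submodule.mem_sup.1 h1
    obtain ⟨u, rfl⟩ := Ideal.mem_span_singleton'.1 hw
    exact ⟨u, by rw [← hzw]; simpa using hz⟩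
  choose u hu using key
  have hspo : PO.map (s : O →+* O) = PO := by
    rw [hPO, Ideal.map_span, Set.image_singleton]
    congr 2
    simp
  have hspc : ∀ z ∈ PO * Cc, s z ∈ PO * J := by
    intro z hz
    have h1 := Ideal.mem_map_of_mem (s : O →+* O) hz
    rw [Ideal.map_mul, hspo] at h1
    exact Ideal.mul_mono_right hCs h1
  set m : ℕ → O := fun i => a j0 ^ i * b ^ (d - i) with hm
  have haI : a j0 ∈ I := Ideal.subset_span (by simp)
  have hbI : b ∈ I := Ideal.subset_span (by simp)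
  have hmI : ∀ i ∈ range (d + 1), m i ∈ I ^ d := by
    intro i hi
    rw [Finset.mem_range] at hi
    have h1 : I ^ d = I ^ i * I ^ (d - i) := by
      rw [← pow_add]
      congr 1
      omega
    rw [h1]
    exact Ideal.mul_mem_mul (Ideal.pow_mem_pow haI _) (Ideal.pow_mem_pow hbI _)
  have hmIp : ∀ i ∈ range (d + 1), m i ^ N ∈ I ^ (N * d) := by
    intro i hi
    rw [mul_comm, pow_mul]
    exact Ideal.pow_mem_pow (hmI i hi) N
  -- step (i)
  have h0 : ∑ i ∈ range (d + 1), f (P.coeff i) * m i = 0 := by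
    have h1 := hom_prod Finset.univ a (fun _ => b) (a j0) b
    rw [Finset.card_univ, ← hd] at h1
    unfold hom at h1
    have h1z : ∏ j, (b * a j0 - a j * b) = 0 :=
      Finset.prod_eq_zero (Finset.mem_univ j0) (by ring)
    rw [h1z] at h1
    rw [← h1]
    exact Finset.sum_congr rfl fun i _ => by rw [hcoef]
  have hA : ∑ i ∈ range (d + 1), (f (P.coeff i) * m i) ^ N ∈ PO * (Cc * I ^ d) ^ N := by
    have h1 := sum_pow_sub_mem p (n + k) hp (Cc * I ^ d) (range (d + 1)) (fun i => f (P.coeff i) * m i)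
      (fun i hi => Ideal.mul_mem_mul (hc i) (hmI i hi))
    rw [h0, ← hN, zero_pow hN0.ne', zero_sub] at h1
    simpa using neg_mem h1
  -- step (ii)
  have hB : ∑ i ∈ range (d + 1), (f (u i) * f t) ^ N * m i ^ N ∈ PO * (Cc ^ N * I ^ (N * d)) := by
    have h1 : ∀ i ∈ range (d + 1), (f (P.coeff i)) ^ N * m i ^ N - (f (u i) * f t) ^ N * m i ^ N ∈
        PO * (Cc ^ N * I ^ (N * d)) := by
      intro i hi
      rw [← sub_mul, ← mul_assoc PO]
      refine Ideal.mul_mem_mul ?_ (hmIp i hi)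
      refine pow_sub_pow_mem Cc PO (hc i) (Ideal.mul_mem_left _ _ htC) ?_ N hN0
      rw [← map_mul, ← map_sub]
      exact hmapPC _ (hu i)
    have h2 := sum_mem h1
    rw [Finset.sum_sub_distrib] at h2
    have h3 : ∑ i ∈ range (d + 1), (f (P.coeff i)) ^ N * m i ^ N ∈ PO * (Cc ^ N * I ^ (N * d)) := by
      have e1 : PO * (Cc ^ N * I ^ (N * d)) = PO * (Cc * I ^ d) ^ N := by
        rw [mul_pow, ← pow_mul, mul_comm d N]
      have e2 : ∑ i ∈ range (d + 1), (f (P.coeff i)) ^ N * m i ^ N =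
          ∑ i ∈ range (d + 1), (f (P.coeff i) * m i) ^ N :=
        Finset.sum_congr rfl fun i _ => (mul_pow _ _ _).symm
      rw [e1, e2]
      exact hA
    have h4 := sub_mem h3 h2
    convert h4 using 1
    ring
  -- step (iii)
  have hsP : P.map ((s : O →+* O).comp f) = ∏ j, (C (s b) * X - C (s (a j))) := by
    rw [← Polynomial.map_map, hP, Polynomial.map_prod]
    refine Finset.prod_congr rfl fun j _ => ?_
    simp
  have hscoef : ∀ i, s (f (P.coeff i)) = (∏ j, (C (s b) * X - C (s (a j)))).coeff i := by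
    intro i
    rw [← hsP, coeff_map]
    rfl
  have hcJ : ∀ i, s (f (P.coeff i)) ∈ J := fun i => hsJ _ (hc i)
  have hC : U - ∑ i ∈ range (d + 1), (s (f (P.coeff i))) ^ e * m i ^ N ∈
      PO * (J ^ e * I ^ (N * d)) := by
    set q := p ^ n with hq
    have h1 := hom_prod Finset.univ (fun j => s (a j)) (fun _ => s b) (a j0 ^ q) (b ^ q)
    rw [Finset.card_univ, ← hd] at h1
    unfold hom at h1
    set B : ι → Ideal O := fun j =>
      (I ^ q * (Ideal.span {a j, b}).map (s : O →+* O)) ^ e with hB'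
    have hx1 : ∀ j, a j0 ^ q * s b ∈ I ^ q * (Ideal.span {a j, b}).map (s : O →+* O) := fun j =>
      Ideal.mul_mem_mul (Ideal.pow_mem_pow haI q)
        (Ideal.mem_map_of_mem (s : O →+* O) (Ideal.subset_span (by simp)))
    have hx2 : ∀ j, b ^ q * s (a j) ∈ I ^ q * (Ideal.span {a j, b}).map (s : O →+* O) := fun j =>
      Ideal.mul_mem_mul (Ideal.pow_mem_pow hbI q)
        (Ideal.mem_map_of_mem (s : O →+* O) (Ideal.subset_span (by simp)))
    have h2 := prod_sub_prod_mem PO Finset.univ B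
      (fun j => (a j0 ^ q * s b) ^ e - (b ^ q * s (a j)) ^ e)
      (fun j => (a j0 ^ q * s b - b ^ q * s (a j)) ^ e)
      (fun j _ => sub_mem (Ideal.pow_mem_pow (hx1 j) e) (Ideal.pow_mem_pow (hx2 j) e))
      (fun j _ => Ideal.pow_mem_pow (sub_mem (hx1 j) (hx2 j)) e)
      (fun j _ => by
        have h3 := sub_pow_sub_mem p k hp _ (hx1 j) (hx2 j)
        rw [← he] at h3
        exact h3)
    have hBprod : ∏ j, B j = J ^ e * I ^ (N * d) := by
      rw [hB', Finset.prod_pow, Finset.prod_mul_distrib, Finset.prod_const, Finset.card_univ,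
        mul_pow, ← pow_mul, ← pow_mul, mul_comm, ← hd, hNe]
      congr 2
      ring
    rw [hBprod] at h2
    have hmq : ∀ i, (a j0 ^ q) ^ i * (b ^ q) ^ (d - i) = m i ^ q := by
      intro i
      rw [hm, mul_pow, ← pow_mul, ← pow_mul, ← pow_mul, ← pow_mul, mul_comm q i,
        mul_comm q (d - i)]
    have h3 : ∏ j, (a j0 ^ q * s b - b ^ q * s (a j)) ^ e =
        (∑ i ∈ range (d + 1), s (f (P.coeff i)) * m i ^ q) ^ e := by
      rw [Finset.prod_pow]
      congr 1
      have h4 : ∏ j, (a j0 ^ q * s b - b ^ q * s (a j)) =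
          ∏ j, (s b * a j0 ^ q - s (a j) * b ^ q) :=
        Finset.prod_congr rfl fun j _ => by ring
      rw [h4, ← h1]
      refine Finset.sum_congr rfl fun i _ => ?_
      rw [hscoef, hmq]
    have hmIq : ∀ i ∈ range (d + 1), m i ^ q ∈ I ^ (q * d) := by
      intro i hi
      rw [mul_comm, pow_mul]
      exact Ideal.pow_mem_pow (hmI i hi) q
    have h5 := sum_pow_sub_mem p k hp (J * I ^ (q * d)) (range (d + 1))
      (fun i => s (f (P.coeff i)) * m i ^ q)
      (fun i hi => Ideal.mul_mem_mul (hcJ i) (hmIq i hi))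
    rw [← he] at h5
    have h6 : (J * I ^ (q * d)) ^ e = J ^ e * I ^ (N * d) := by
      rw [mul_pow, ← pow_mul, hNe]
      congr 2
      ring
    rw [h6, ← h3] at h5
    have h7 := add_mem h2 h5
    have h8 : U = ∏ j, ((a j0 ^ q * s b) ^ e - (b ^ q * s (a j)) ^ e) := by
      rw [hU]
      refine Finset.prod_congr rfl fun j _ => ?_
      rw [mul_pow, mul_pow, ← pow_mul, ← pow_mul, ← hNe]
    rw [h8]
    convert h7 using 1
    have h9 : ∑ i ∈ range (d + 1), (s (f (P.coeff i)) * m i ^ q) ^ e =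
        ∑ i ∈ range (d + 1), (s (f (P.coeff i))) ^ e * m i ^ N :=
      Finset.sum_congr rfl fun i _ => by rw [mul_pow, ← pow_mul, ← hNe]
    rw [h9]
    ring
  -- step (iv), (v)
  set W : Ideal O := J ^ e * I ^ (N * d) with hW
  have hstJ : s (f t) ∈ J := hsJ _ htC
  have hD : ∀ i ∈ range (d + 1), ((s (f (P.coeff i))) ^ e - (s (f (u i)) * s (f t)) ^ e) *
      m i ^ N ∈ PO * W := by
    intro i hi
    rw [hW, ← mul_assoc]
    refine Ideal.mul_mem_mul ?_ (hmIp i hi)
    refine pow_sub_pow_mem J PO (hcJ i) (Ideal.mul_mem_left _ _ hstJ) ?_ e he0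
    rw [← map_mul, ← map_mul, ← map_sub, ← map_sub]
    exact hspc _ (hmapPC _ (hu i))
  have hE : ∀ i ∈ range (d + 1), ((s (f (u i))) ^ e - (f (u i)) ^ N) * ((s (f t)) ^ e * m i ^ N) ∈
      PO * W := by
    intro i hi
    refine Ideal.mul_mem_mul ?_ (Ideal.mul_mem_mul (Ideal.pow_mem_pow hstJ e) (hmIp i hi))
    obtain ⟨v, hv⟩ := hcong (u i)
    have h1 : (s (f (u i))) ^ e - (f (u i)) ^ N = (p : O) * - f v := by
      have h2 := congrArg f hv
      rw [map_sub, map_pow, map_pow, map_mul, map_natCast] at h2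
      rw [hs, mul_neg, ← h2]
      ring
    rw [h1]
    exact Ideal.mul_mem_right _ _ (Ideal.mem_span_singleton_self _)
  have hF : f t ^ N * U ∈ PO * (Cc ^ N * W) := by
    have htp : f t ^ N ∈ Cc ^ N := Ideal.pow_mem_pow htC N
    have e0 : PO * (Cc ^ N * W) = Cc ^ N * (PO * W) := by ring
    have t1 : f t ^ N * (U - ∑ i ∈ range (d + 1), (s (f (P.coeff i))) ^ e * m i ^ N) ∈
        PO * (Cc ^ N * W) := by
      rw [e0]
      exact Ideal.mul_mem_mul htp hC
    have t2 : f t ^ N * ∑ i ∈ range (d + 1),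
        ((s (f (P.coeff i))) ^ e - (s (f (u i)) * s (f t)) ^ e) * m i ^ N ∈
        PO * (Cc ^ N * W) := by
      rw [e0]
      exact Ideal.mul_mem_mul htp (sum_mem hD)
    have t3 : f t ^ N * ∑ i ∈ range (d + 1),
        ((s (f (u i))) ^ e - (f (u i)) ^ N) * ((s (f t)) ^ e * m i ^ N) ∈
        PO * (Cc ^ N * W) := by
      rw [e0]
      exact Ideal.mul_mem_mul htp (sum_mem hE)
    have t4 : s (f t) ^ e * ∑ i ∈ range (d + 1), (f (u i) * f t) ^ N * m i ^ N ∈
        PO * (Cc ^ N * W) := by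
      have e1 : PO * (Cc ^ N * W) = J ^ e * (PO * (Cc ^ N * I ^ (N * d))) := by
        rw [hW]
        ring
      rw [e1]
      exact Ideal.mul_mem_mul (Ideal.pow_mem_pow hstJ e) hB
    have h1 := add_mem (add_mem (add_mem t1 t2) t3) t4
    convert h1 using 1
    have e2 : ∑ i ∈ range (d + 1), (s (f (P.coeff i))) ^ e * m i ^ N =
        ∑ i ∈ range (d + 1), (((s (f (P.coeff i))) ^ e - (s (f (u i)) * s (f t)) ^ e) * m i ^ N +
        (((s (f (u i))) ^ e - (f (u i)) ^ N) * ((s (f t)) ^ e * m i ^ N) +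
        s (f t) ^ e * ((f (u i)) ^ N * m i ^ N))) := by
      refine Finset.sum_congr rfl fun i _ => ?_
      rw [mul_pow]
      ring
    have e3 : s (f t) ^ e * ∑ i ∈ range (d + 1), (f (u i) * f t) ^ N * m i ^ N =
        f t ^ N * ∑ i ∈ range (d + 1), s (f t) ^ e * ((f (u i)) ^ N * m i ^ N) := by
      rw [Finset.mul_sum, Finset.mul_sum]
      refine Finset.sum_congr rfl fun i _ => ?_
      rw [mul_pow]
      ring
    rw [e3, e2, Finset.sum_add_distrib, Finset.sum_add_distrib]
    ring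
  -- cancellation
  have hUW : U ∈ W := by
    have hsb : ∀ j, s b ∈ (Ideal.span {a j, b}).map (s : O →+* O) := fun j =>
      Ideal.mem_map_of_mem (s : O →+* O) (Ideal.subset_span (by simp))
    have hsa : ∀ j, s (a j) ∈ (Ideal.span {a j, b}).map (s : O →+* O) := fun j =>
      Ideal.mem_map_of_mem (s : O →+* O) (Ideal.subset_span (by simp))
    have h1 : ∀ j ∈ (Finset.univ : Finset ι), a j0 ^ N * (s b) ^ e - b ^ N * (s (a j)) ^ e ∈
        ((Ideal.span {a j, b}).map (s : O →+* O)) ^ e * I ^ N := by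
      intro j _
      have e1 : a j0 ^ N * (s b) ^ e - b ^ N * (s (a j)) ^ e =
          (s b) ^ e * a j0 ^ N - (s (a j)) ^ e * b ^ N := by ring
      rw [e1]
      exact sub_mem (Ideal.mul_mem_mul (Ideal.pow_mem_pow (hsb j) e) (Ideal.pow_mem_pow haI N))
        (Ideal.mul_mem_mul (Ideal.pow_mem_pow (hsa j) e) (Ideal.pow_mem_pow hbI N))
    have h2 := Ideal.prod_mem_prod h1
    rw [Finset.prod_mul_distrib, Finset.prod_pow, Finset.prod_const, Finset.card_univ,
      ← pow_mul] at h2
    exact h2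
  have h1 : Cc ≤ PO * Cc ⊔ Ideal.span {f t} := by
    have h2 : (Ideal.span {t}).map f = Ideal.span {f t} := by
      rw [Ideal.map_span, Set.image_singleton]
    have h3 : (PK * CK ⊔ Ideal.span {t}).map f = PO * Cc ⊔ Ideal.span {f t} := by
      rw [Ideal.map_sup, Ideal.map_mul, hPmap, h2]
    rw [ht] at h3
    exact le_of_eq h3
  have hpk : N = (N - 1) + 1 := by omega
  rw [hpk] at hF
  exact cancel_mem PO Cc W U (f t) (N - 1) hfinj htC h1 hUW hF

end main

end Pool.Agent.helper69.SLG
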