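import Pool.Agent.helper69.SLG.LocF
import Pool.Agent.helper69.SLR.Desc

set_option autoImplicit false

/-!
# Preparations for the descent (helper69)
-/

namespace Pool.Agent.helper69.SLG

open NumberField Height Module IntermediateField Polynomial
open Pool.Agent.helper79.SL Pool.Agent.helper69.SLR
open scoped Pointwise

section

variable {E : Type*} [Field E] [NumberField E] [IsGalois ℚ E]

lemma gen_of_ram {p a : ℕ} (hp : p.Prime) (K : IntermediateField ℚ E) {m : ℕ} [hm0 : NeZero m]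
    {Z : E} (hZ : IsPrimitiveRoot Z m) (htop : K ⊔ ℚ⟮Z⟯ = ⊤) {σ : Gal(E/ℚ)} (hσ1 : σ ≠ 1)
    (hdvd : p ^ (a + 2) ∣ m) (hσK : ∀ c ∈ K, σ c = c) (hσZ : σ (Z ^ p) = Z ^ p) :
    (∀ η : E, η ^ (p ^ (a + 1)) = 1 → σ η = η) ∧ (∀ c : E, σ c = c → c ∈ K ⊔ ℚ⟮Z ^ p⟯) ∧
      ∀ ξ : E, ξ ^ p = 1 → ∃ j : ℕ, σ (Z ^ j) * ξ = Z ^ j := by
  have hpF : Fact p.Prime := ⟨hp⟩
  have hpZ : NeZero p := ⟨hp.ne_zero⟩
  have hm : m ≠ 0 := hm0.ne
  have hmpos : 0 < m := Nat.pos_of_ne_zero hm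
  have hZ0 : Z ≠ 0 := hZ.ne_zero hm
  obtain ⟨m₂, hm₂⟩ := hdvd
  have hpa : NeZero (p ^ (a + 1)) := ⟨(pow_pos hp.pos _).ne'⟩
  have hfix : ∀ η : E, η ^ (p ^ (a + 1)) = 1 → σ η = η := by
    intro η hη
    have h1 : IsPrimitiveRoot (Z ^ (p * m₂)) (p ^ (a + 1)) := hZ.pow hmpos (by rw [hm₂]; ring)
    obtain ⟨j, -, hj⟩ := h1.eq_pow_of_pow_eq_one hη
    rw [← hj, map_pow, pow_mul, map_pow, hσZ]
  -- the root of unity `ω`
  set ω : E := σ Z / Z with hω
  have hσZ' : σ Z = ω * Z := by rw [hω, div_mul_cancel₀ _ hZ0]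
  have hωp : ω ^ p = 1 := by
    rw [hω, div_pow, ← map_pow, hσZ, div_self (pow_ne_zero _ hZ0)]
  have hω1 : ω ≠ 1 := by
    intro h
    apply hσ1
    apply ext_gen K htop
    · intro c hc
      rw [hσK c hc, AlgEquiv.one_apply]
    · rw [hσZ', h, one_mul, AlgEquiv.one_apply]
  have hωprim : IsPrimitiveRoot ω p := by
    have h1 := IsPrimitiveRoot.orderOf ω
    rwa [orderOf_eq_prime hωp hω1] at h1
  have hσω : σ ω = ω := by
    apply hfix
    rw [pow_succ', pow_mul, hωp, one_pow]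
  have hit : ∀ i : ℕ, (σ ^ i) Z = ω ^ i * Z := by
    intro i
    induction i with
    | zero => simp
    | succ i ih =>
      rw [pow_succ', AlgEquiv.mul_apply, ih, map_mul, map_pow, hσω, hσZ']
      ring
  refine ⟨hfix, ?_, ?_⟩
  · intro c hc
    rw [← IsGalois.fixedField_fixingSubgroup (K ⊔ ℚ⟮Z ^ p⟯), IntermediateField.mem_fixedField_iff]
    intro τ hτ
    rw [IntermediateField.mem_fixingSubgroup_iff] at hτ
    have hτK : ∀ c ∈ K, τ c = c := fun c hc =>
      hτ c ((le_sup_left : K ≤ K ⊔ ℚ⟮Z ^ p⟯) hc)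
    have hτZ : τ (Z ^ p) = Z ^ p :=
      hτ _ ((le_sup_right : ℚ⟮Z ^ p⟯ ≤ K ⊔ ℚ⟮Z ^ p⟯) (mem_adjoin_simple_self ℚ (Z ^ p)))
    obtain ⟨i, -, hi⟩ := hωprim.eq_pow_of_pow_eq_one (ξ := τ Z / Z) (by
      rw [div_pow, ← map_pow, hτZ, div_self (pow_ne_zero _ hZ0)])
    have hτZ' : τ Z = ω ^ i * Z := by rw [hi, div_mul_cancel₀ _ hZ0]
    have hτσ : τ = σ ^ i := by
      apply ext_gen K htop
      · intro c hc
        rw [hτK c hc]
        have : ∀ i : ℕ, (σ ^ i) c = c := by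
          intro i
          induction i with
          | zero => simp
          | succ i ih => rw [pow_succ, AlgEquiv.mul_apply, hσK c hc, ih]
        exact (this i).symm
      · rw [hτZ', hit]
    rw [hτσ]
    have : ∀ i : ℕ, (σ ^ i) c = c := by
      intro i
      induction i with
      | zero => simp
      | succ i ih => rw [pow_succ, AlgEquiv.mul_apply, hc, ih]
    exact this i
  · intro ξ hξ
    obtain ⟨t, -, ht⟩ := hωprim.eq_pow_of_pow_eq_one hξ
    refine ⟨(p - 1) * t, ?_⟩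
    have e1 : (p - 1) * t + t = p * t := by
      have := hp.pos
      obtain ⟨q, rfl⟩ : ∃ q, p = q + 1 := ⟨p - 1, by omega⟩
      simp only [Nat.add_sub_cancel]
      ring
    have e2 : ω ^ ((p - 1) * t) * ω ^ t = 1 := by
      rw [← pow_add, e1, pow_mul, hωp, one_pow]
    rw [map_pow, hσZ', mul_pow, ← ht]
    linear_combination (Z ^ ((p - 1) * t)) * e2

end

section

variable {L : Type*} [Field L] [NumberField L]

/-- iterating `x ^ A = (ρ x) ^ B` -/
lemma torsion_of_pow (ρ : L ≃ₐ[ℚ] L) {x : L} (hx : x ≠ 0) (A B : ℕ) (hAB : B < A)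
    (h : x ^ A = (ρ x) ^ B) : ∃ k : ℕ, 0 < k ∧ x ^ k = 1 := by
  have h1 : ∀ i : ℕ, x ^ (A ^ i) = ((ρ ^ i) x) ^ (B ^ i) := by
    intro i
    induction i with
    | zero => simp
    | succ i ih =>
      have h2 : ((ρ ^ i) x) ^ A = ((ρ ^ (i + 1)) x) ^ B := by
        rw [← map_pow, h, map_pow, pow_succ, AlgEquiv.mul_apply]
      rw [pow_succ, pow_mul, ih, ← pow_mul, mul_comm (B ^ i) A, pow_mul, h2, ← pow_mul,
        pow_succ' B]
  have h2 := h1 (Nat.card (L ≃ₐ[ℚ] L))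
  rw [pow_card_eq_one', AlgEquiv.one_apply] at h2
  set N := Nat.card (L ≃ₐ[ℚ] L) with hN
  have hNpos : 0 < N := Nat.card_pos
  have h3 : B ^ N < A ^ N := Nat.pow_lt_pow_left hAB hNpos.ne'
  refine ⟨A ^ N - B ^ N, by omega, ?_⟩
  have h5 : x ^ (A ^ N - B ^ N) * x ^ (B ^ N) = 1 * x ^ (B ^ N) := by
    rw [← pow_add, one_mul, Nat.sub_add_cancel h3.le]
    exact h2
  exact mul_right_cancel₀ (pow_ne_zero _ hx) h5

/-- a root of unity of prime power order in `K` which multiplies `x` into a conjugate -/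
lemma root_one {p j f : ℕ} (hp : p.Prime) (hfp : f < p) (K : IntermediateField ℚ L) (x : L)
    (hx0 : x ≠ 0) (hdeg : (minpoly K x).natDegree ≤ f) (ω : K) (hω : ω ^ (p ^ j) = 1)
    (τ : L ≃ₐ[K] L) (hτ : τ x = (ω : L) * x) : ω = 1 := by
  have hxint : IsIntegral K x := Algebra.IsIntegral.isIntegral x
  have hQm : (minpoly K x).Monic := minpoly.monic hxint
  have h1 : minpoly K ((ω : L) * x) = minpoly K x := by
    rw [← hτ, minpoly.algEquiv_eq]
  have h2 : (minpoly K x).scaleRoots ω = minpoly K x := by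
    apply eq_of_monic_of_dvd_of_natDegree_le hQm ((monic_scaleRoots_iff _).2 hQm)
    · conv_lhs => rw [← h1]
      apply minpoly.dvd
      exact scaleRoots_aeval_eq_zero (r := ω) (minpoly.aeval K x)
    · rw [natDegree_scaleRoots]
  have h3 := congrArg (fun q : K[X] => q.coeff 0) h2
  simp only [coeff_scaleRoots, Nat.sub_zero] at h3
  have h4 : (minpoly K x).coeff 0 ≠ 0 := minpoly.coeff_zero_ne_zero hxint hx0
  have h5 : ω ^ (minpoly K x).natDegree = 1 := by
    have h6 : (minpoly K x).coeff 0 * ω ^ (minpoly K x).natDegree = (minpoly K x).coeff 0 * 1 := by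
      rw [mul_one]
      exact h3
    exact mul_left_cancel₀ h4 h6
  have hpos : 0 < (minpoly K x).natDegree := minpoly.natDegree_pos hxint
  have hcop : Nat.Coprime (p ^ j) (minpoly K x).natDegree := by
    apply Nat.Coprime.pow_left
    rw [Nat.Prime.coprime_iff_not_dvd hp]
    intro hdvd
    have := Nat.le_of_dvd hpos hdvd
    omega
  have h6 : orderOf ω ∣ 1 := by
    rw [← hcop]
    exact Nat.dvd_gcd (orderOf_dvd_of_pow_eq_one hω) (orderOf_dvd_of_pow_eq_one h5)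
  exact orderOf_eq_one_iff.1 (Nat.dvd_one.1 h6)

end

end Pool.Agent.helper69.SLG
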