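import Pool.Agent.helper69.SLG.DescA

set_option autoImplicit false

/-!
# Lemmas on intermediate fields (helper69)
-/

namespace Pool.Agent.helper69.SLG

open NumberField Height Finset Module IntermediateField Polynomial
open Pool.Agent.helper79.SL Pool.Agent.helper69.SLR
open scoped Pointwise

section

variable {L : Type*} [Field L] [NumberField L]

lemma normal_sup' (K F : IntermediateField ℚ L)
    (h1 : Normal ℚ K) (h2 : Normal ℚ F) : Normal ℚ (K ⊔ F : IntermediateField ℚ L) :=
  @IntermediateField.normal_sup ℚ L _ _ _ K F h1 h2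

lemma normal_restrict {K F : IntermediateField ℚ L} (h : K ≤ F)
    (h1 : Normal ℚ K) : Normal ℚ (IntermediateField.restrict h) :=
  @Normal.of_algEquiv _ _ _ _ _ _ _ _ h1 (IntermediateField.restrictAlgEquiv h)

lemma lift_gen {K E : IntermediateField ℚ L} (hKE : K ≤ E) (W : L) (hW : W ∈ E) (c : E) :
    c ∈ IntermediateField.restrict hKE ⊔ ℚ⟮(⟨W, hW⟩ : E)⟯ ↔ (c : L) ∈ K ⊔ ℚ⟮W⟯ := by
  rw [← IntermediateField.mem_lift]
  have h : IntermediateField.lift (IntermediateField.restrict hKE ⊔ ℚ⟮(⟨W, hW⟩ : E)⟯) =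
      K ⊔ ℚ⟮W⟯ := by
    rw [IntermediateField.lift, IntermediateField.map_sup]
    congr 1
    · exact IntermediateField.lift_restrict hKE
    · rw [IntermediateField.adjoin_map, Set.image_singleton]
      rfl
  rw [h]

end

end Pool.Agent.helper69.SLG
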