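import Pool.Agent.helper69.SLG.DescB
import Pool.Agent.helper79.SL.Fin

set_option autoImplicit false

/-!
# Final forms: radicals over extensions of bounded degree of `N(μ_∞)` (helper69)
-/

namespace Pool.Agent.helper69.SLG

open NumberField Height Finset Module IntermediateField Polynomial
open Pool.Agent.helper79.SL Pool.Agent.helper69.SLR

/-- the local degrees of `N` at `p` are at most `D` -/
def BddLocDeg (p D : ℕ) (N : IntermediateField ℚ ℂ) : Prop :=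
  ∀ K : IntermediateField ℚ ℂ, K ≤ N → ∀ [NumberField K], Normal ℚ K → LocDeg p D K

lemma normal_bot' : Normal ℚ (⊥ : IntermediateField ℚ ℂ) :=
  @Normal.of_algEquiv _ _ _ _ _ _ _ _ inferInstance (botEquiv ℚ ℂ).symm

lemma finite_normal_le (N : IntermediateField ℚ ℂ) (hN : Normal ℚ N) {c : ℂ} (hc : c ∈ N) :
    ∃ K : IntermediateField ℚ ℂ, K ≤ N ∧ FiniteDimensional ℚ K ∧ Normal ℚ K ∧ c ∈ K := by
  have hNalg : Algebra.IsAlgebraic ℚ N := hN.toIsAlgebraic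
  have hcalg : IsAlgebraic ℚ c := by
    have h1 : IsAlgebraic ℚ (⟨c, hc⟩ : N) := Algebra.IsAlgebraic.isAlgebraic _
    exact h1.algebraMap (A := ℂ)
  have hfd : FiniteDimensional ℚ ℚ⟮c⟯ := adjoin.finiteDimensional hcalg.isIntegral
  have h1 : FiniteDimensional ℚ (normalClosure ℚ ℚ⟮c⟯ ℂ) :=
    normalClosure.is_finiteDimensional ℚ ℚ⟮c⟯ ℂ
  have h2 : IsNormalClosure ℚ ℚ⟮c⟯ (normalClosure ℚ ℚ⟮c⟯ ℂ) :=
    Algebra.IsAlgebraic.isNormalClosure_normalClosure fun x => IsAlgClosed.splits _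
  have h3 : Normal ℚ (normalClosure ℚ ℚ⟮c⟯ ℂ) := IsNormalClosure.normal (K := ℚ⟮c⟯)
  refine ⟨normalClosure ℚ ℚ⟮c⟯ ℂ, ?_, h1, h3, ?_⟩
  · rw [normalClosure_le_iff]
    rintro f _ ⟨y, rfl⟩
    have hyN : (y : ℂ) ∈ N := (adjoin_simple_le_iff.2 hc : ℚ⟮c⟯ ≤ N) y.2
    have e1 : minpoly ℚ (⟨y, hyN⟩ : N) = minpoly ℚ (y : ℂ) :=
      (minpoly.algHom_eq N.val N.val.injective (⟨y, hyN⟩ : N)).symm
    have e2 : minpoly ℚ y = minpoly ℚ (y : ℂ) :=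
      (minpoly.algHom_eq (ℚ⟮c⟯).val (ℚ⟮c⟯).val.injective y).symm
    have hsp := hN.splits (⟨y, hyN⟩ : N)
    rw [e1, ← e2] at hsp
    have h5 : ∀ x ∈ (minpoly ℚ y).rootSet ℂ, x ∈ N :=
      (IntermediateField.splits_iff_mem (IsAlgClosed.splits _)).1 hsp
    apply h5
    rw [mem_rootSet]
    refine ⟨minpoly.ne_zero (Algebra.IsIntegral.isIntegral y), ?_⟩
    have h6 := Polynomial.aeval_algHom_apply f y (minpoly ℚ y)
    rw [minpoly.aeval, map_zero] at h6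
    exact h6
  · exact le_normalClosure ℚ⟮c⟯ (mem_adjoin_simple_self ℚ c)

/-- the elements of `N(μ_∞)` lie in composita of finite normal extensions and cyclotomic fields -/
lemma mem_level (N : IntermediateField ℚ ℂ) (hN : Normal ℚ N) {x : ℂ} (hx : x ∈ Kinf N) :
    ∃ K : IntermediateField ℚ ℂ, K ≤ N ∧ FiniteDimensional ℚ K ∧ Normal ℚ K ∧
      ∃ (m : ℕ) (ζ : ℂ), 0 < m ∧ IsPrimitiveRoot ζ m ∧ x ∈ K ⊔ ℚ⟮ζ⟯ := by
  have key : ∀ {a b : ℂ}, (∃ K : IntermediateField ℚ ℂ, K ≤ N ∧ FiniteDimensional ℚ K ∧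
      Normal ℚ K ∧ ∃ (m : ℕ) (ζ : ℂ), 0 < m ∧ IsPrimitiveRoot ζ m ∧ a ∈ K ⊔ ℚ⟮ζ⟯) →
      (∃ K : IntermediateField ℚ ℂ, K ≤ N ∧ FiniteDimensional ℚ K ∧
      Normal ℚ K ∧ ∃ (m : ℕ) (ζ : ℂ), 0 < m ∧ IsPrimitiveRoot ζ m ∧ b ∈ K ⊔ ℚ⟮ζ⟯) →
      (∃ K : IntermediateField ℚ ℂ, K ≤ N ∧ FiniteDimensional ℚ K ∧
      Normal ℚ K ∧ ∃ (m : ℕ) (ζ : ℂ), 0 < m ∧ IsPrimitiveRoot ζ m ∧ a ∈ K ⊔ ℚ⟮ζ⟯ ∧
        b ∈ K ⊔ ℚ⟮ζ⟯) := by
    rintro a b ⟨K₁, h1, h2, h3, m, ζ, hm, hζ, ha⟩ ⟨K₂, h1', h2', h3', n, ξ, hn, hξ, hb⟩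
    have hmn : m * n ≠ 0 := Nat.mul_ne_zero hm.ne' hn.ne'
    have e1 : ℚ⟮ζ⟯ ≤ ℚ⟮Complex.exp (2 * Real.pi * Complex.I / ((m * n : ℕ) : ℂ))⟯ :=
      adjoin_root_le hm.ne' hmn (Dvd.intro _ rfl) hζ.pow_eq_one
        (Complex.isPrimitiveRoot_exp (m * n) hmn)
    have e2 : ℚ⟮ξ⟯ ≤ ℚ⟮Complex.exp (2 * Real.pi * Complex.I / ((m * n : ℕ) : ℂ))⟯ :=
      adjoin_root_le hn.ne' hmn (Dvd.intro_left _ rfl) hξ.pow_eq_one
        (Complex.isPrimitiveRoot_exp (m * n) hmn)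
    refine ⟨K₁ ⊔ K₂, sup_le h1 h1', IntermediateField.finiteDimensional_sup K₁ K₂,
      @IntermediateField.normal_sup ℚ ℂ _ _ _ K₁ K₂ h3 h3', m * n, _, Nat.pos_of_ne_zero hmn,
      Complex.isPrimitiveRoot_exp (m * n) hmn, ?_, ?_⟩
    · exact sup_le_sup le_sup_left e1 ha
    · exact sup_le_sup le_sup_right e2 hb
  have combine : ∀ {a b c : ℂ}, (∀ L : IntermediateField ℚ ℂ, a ∈ L → b ∈ L → c ∈ L) →
      (∃ K : IntermediateField ℚ ℂ, K ≤ N ∧ FiniteDimensional ℚ K ∧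
      Normal ℚ K ∧ ∃ (m : ℕ) (ζ : ℂ), 0 < m ∧ IsPrimitiveRoot ζ m ∧ a ∈ K ⊔ ℚ⟮ζ⟯) →
      (∃ K : IntermediateField ℚ ℂ, K ≤ N ∧ FiniteDimensional ℚ K ∧
      Normal ℚ K ∧ ∃ (m : ℕ) (ζ : ℂ), 0 < m ∧ IsPrimitiveRoot ζ m ∧ b ∈ K ⊔ ℚ⟮ζ⟯) →
      (∃ K : IntermediateField ℚ ℂ, K ≤ N ∧ FiniteDimensional ℚ K ∧
      Normal ℚ K ∧ ∃ (m : ℕ) (ζ : ℂ), 0 < m ∧ IsPrimitiveRoot ζ m ∧ c ∈ K ⊔ ℚ⟮ζ⟯) := by
    intro a b c h ha hb
    obtain ⟨K, h1, h2, h3, m, ζ, hm, hζ, h4, h5⟩ := key ha hb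
    exact ⟨K, h1, h2, h3, m, ζ, hm, hζ, h _ h4 h5⟩
  unfold Kinf at hx
  induction hx using adjoin_induction with
  | mem x hx =>
    rcases hx with hx | ⟨k, hk, h⟩
    · obtain ⟨K, h1, h2, h3, h4⟩ := finite_normal_le N hN hx
      exact ⟨K, h1, h2, h3, 1, 1, one_pos, IsPrimitiveRoot.one, (le_sup_left : K ≤ _) h4⟩
    · refine ⟨⊥, bot_le, inferInstance, normal_bot', k, _, hk,
        Complex.isPrimitiveRoot_exp k hk.ne', ?_⟩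
      have h5 := adjoin_root_le hk.ne' hk.ne' dvd_rfl h (Complex.isPrimitiveRoot_exp k hk.ne')
        (mem_adjoin_simple_self ℚ x)
      exact (le_sup_right : _ ≤ (⊥ : IntermediateField ℚ ℂ) ⊔ _) h5
  | algebraMap q =>
    exact ⟨⊥, bot_le, inferInstance, normal_bot', 1, 1, one_pos, IsPrimitiveRoot.one,
      IntermediateField.algebraMap_mem _ q⟩
  | add a b _ _ ha hb => exact combine (fun L h1 h2 => add_mem h1 h2) ha hb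
  | inv a _ ha =>
    obtain ⟨K, h1, h2, h3, m, ζ, hm, hζ, h4⟩ := ha
    exact ⟨K, h1, h2, h3, m, ζ, hm, hζ, inv_mem h4⟩
  | mul a b _ _ ha hb => exact combine (fun L h1 h2 => mul_mem h1 h2) ha hb

/-- the same for finitely many elements -/
lemma common_level (N : IntermediateField ℚ ℂ) (hN : Normal ℚ N) {ι : Type*} (s : Finset ι)
    (c : ι → ℂ) (hc : ∀ i ∈ s, c i ∈ Kinf N) :
    ∃ K : IntermediateField ℚ ℂ, K ≤ N ∧ FiniteDimensional ℚ K ∧ Normal ℚ K ∧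
      ∃ (m : ℕ) (ζ : ℂ), 0 < m ∧ IsPrimitiveRoot ζ m ∧ ∀ i ∈ s, c i ∈ K ⊔ ℚ⟮ζ⟯ := by
  classical
  induction s using Finset.induction_on with
  | empty => exact ⟨⊥, bot_le, inferInstance, normal_bot', 1, 1, one_pos,
      IsPrimitiveRoot.one, by simp⟩
  | insert a s ha ih =>
    obtain ⟨K₁, h1, h2, h3, m, ζ, hm, hζ, h4⟩ := ih fun i hi => hc i (Finset.mem_insert_of_mem hi)
    obtain ⟨K₂, h1', h2', h3', n, ξ, hn, hξ, h5⟩ :=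
      mem_level N hN (hc a (Finset.mem_insert_self a s))
    have hmn : m * n ≠ 0 := Nat.mul_ne_zero hm.ne' hn.ne'
    have e1 : ℚ⟮ζ⟯ ≤ ℚ⟮Complex.exp (2 * Real.pi * Complex.I / ((m * n : ℕ) : ℂ))⟯ :=
      adjoin_root_le hm.ne' hmn (Dvd.intro _ rfl) hζ.pow_eq_one
        (Complex.isPrimitiveRoot_exp (m * n) hmn)
    have e2 : ℚ⟮ξ⟯ ≤ ℚ⟮Complex.exp (2 * Real.pi * Complex.I / ((m * n : ℕ) : ℂ))⟯ :=
      adjoin_root_le hn.ne' hmn (Dvd.intro_left _ rfl) hξ.pow_eq_one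
        (Complex.isPrimitiveRoot_exp (m * n) hmn)
    refine ⟨K₁ ⊔ K₂, sup_le h1 h1', IntermediateField.finiteDimensional_sup K₁ K₂,
      @IntermediateField.normal_sup ℚ ℂ _ _ _ K₁ K₂ h3 h3', m * n, _, Nat.pos_of_ne_zero hmn,
      Complex.isPrimitiveRoot_exp (m * n) hmn, ?_⟩
    intro i hi
    rcases Finset.mem_insert.1 hi with rfl | hi
    · exact sup_le_sup le_sup_right e2 h5
    · exact sup_le_sup le_sup_left e1 (h4 i hi)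

end Pool.Agent.helper69.SLG
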