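import Pool.Agent.helper69.SLG.Cong

set_option autoImplicit false

/-!
# Ramification in Galois number fields (helper69)
-/

namespace Pool.Agent.helper69.SLG

open NumberField Module Polynomial UniqueFactorizationMonoid
open scoped Pointwise

/-- the local degrees of `K` at `p` are at most `D` -/
def LocDeg (p D : ℕ) (K : Type*) [Field K] [NumberField K] : Prop :=
  ∀ P : Ideal (𝓞 K), P.IsPrime → (p : 𝓞 K) ∈ P → P.ramificationIdx ℤ * P.inertiaDeg ℤ ≤ D

section

variable {E : Type*} [Field E] [NumberField E]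

omit [NumberField E] in
lemma map_p (p : ℕ) : Ideal.map (algebraMap ℤ (𝓞 E)) (Ideal.span {(p : ℤ)}) =
    Ideal.span {(p : 𝓞 E)} := by
  rw [Ideal.map_span, Set.image_singleton, eq_intCast, Int.cast_natCast]

lemma span_p_ne_bot (p : ℕ) (hp : p.Prime) : Ideal.span {(p : 𝓞 E)} ≠ ⊥ := by
  rw [Ne, Ideal.span_singleton_eq_bot]
  exact_mod_cast hp.ne_zero

omit [NumberField E] in
lemma liesOver_of_mem (p : ℕ) (hp : p.Prime) (P : Ideal (𝓞 E)) [P.IsPrime]
    (h : (p : 𝓞 E) ∈ P) : P.LiesOver (Ideal.span {(p : ℤ)}) := by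
  constructor
  have hmax : (Ideal.span {(p : ℤ)}).IsMaximal :=
    PrincipalIdealRing.isMaximal_of_irreducible (Nat.prime_iff_prime_int.1 hp).irreducible
  refine hmax.eq_of_le (Ideal.IsPrime.under ℤ P).ne_top ?_
  rw [Ideal.span_singleton_le_iff_mem, Ideal.mem_comap, eq_intCast, Int.cast_natCast]
  exact h

lemma dvd_of_mem_pow (p : ℕ) (hp : p.Prime) (y : 𝓞 E)
    (h : ∀ P : Ideal (𝓞 E), P.IsPrime → (p : 𝓞 E) ∈ P → y ∈ P ^ (P.ramificationIdx ℤ)) :
    (p : 𝓞 E) ∣ y := by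
  classical
  by_cases hy : y = 0
  · rw [hy]
    exact dvd_zero _
  have hy0 : Ideal.span {y} ≠ 0 := by
    rw [Ne, Ideal.zero_eq_bot, Ideal.span_singleton_eq_bot]
    exact hy
  have hp0 : Ideal.span {(p : 𝓞 E)} ≠ 0 := span_p_ne_bot p hp
  rw [← Ideal.span_singleton_le_span_singleton, ← Ideal.dvd_iff_le,
    dvd_iff_normalizedFactors_le_normalizedFactors hp0 hy0, Multiset.le_iff_count]
  intro P
  by_cases hP : P ∈ normalizedFactors (Ideal.span {(p : 𝓞 E)})
  · have hPp : Prime P := prime_of_normalized_factor P hP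
    have hPrime : P.IsPrime := Ideal.isPrime_of_prime hPp
    have hmem : (p : 𝓞 E) ∈ P := by
      have h1 := dvd_of_mem_normalizedFactors hP
      rw [Ideal.dvd_iff_le, Ideal.span_singleton_le_iff_mem] at h1
      exact h1
    have hlo := liesOver_of_mem p hp P hmem
    have h2 := h P hPrime hmem
    have h3 := Ideal.IsDedekindDomain.ramificationIdx_eq_normalizedFactors_count
      (Ideal.span {(p : ℤ)}) P (by rw [map_p]; exact hp0)
    rw [map_p] at h3
    rw [← h3]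
    have h4 : P ^ (P.ramificationIdx ℤ) ∣ Ideal.span {y} := by
      rw [Ideal.dvd_iff_le, Ideal.span_singleton_le_iff_mem]
      exact h2
    rw [pow_dvd_iff_le_emultiplicity, emultiplicity_eq_count_normalizedFactors hPp.irreducible hy0,
      normalize_eq] at h4
    exact_mod_cast h4
  · rw [Multiset.count_eq_zero.2 hP]
    exact Nat.zero_le _

section galois

variable [IsGalois ℚ E]

instance galZ : IsGaloisGroup Gal(E/ℚ) ℤ (𝓞 E) := IsGaloisGroup.of_isFractionRing _ ℤ (𝓞 E) ℚ E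

lemma ramIdx_eq (p : ℕ) (hp : p.Prime) (P Q : Ideal (𝓞 E)) [P.IsPrime] [Q.IsPrime]
    (hP : (p : 𝓞 E) ∈ P) (hQ : (p : 𝓞 E) ∈ Q) : P.ramificationIdx ℤ = Q.ramificationIdx ℤ := by
  have := liesOver_of_mem p hp P hP
  have := liesOver_of_mem p hp Q hQ
  exact Ideal.ramificationIdx_eq_of_isGaloisGroup (Ideal.span {(p : ℤ)}) P Q Gal(E/ℚ)

lemma exists_smul (p : ℕ) (hp : p.Prime) (P Q : Ideal (𝓞 E)) [P.IsPrime] [Q.IsPrime]
    (hP : (p : 𝓞 E) ∈ P) (hQ : (p : 𝓞 E) ∈ Q) : ∃ g : Gal(E/ℚ), g • P = Q := by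
  have := liesOver_of_mem p hp P hP
  have := liesOver_of_mem p hp Q hQ
  exact Ideal.exists_smul_eq_of_isGaloisGroup (Ideal.span {(p : ℤ)}) P Q Gal(E/ℚ)

end galois

end

end Pool.Agent.helper69.SLG
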