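import Pool.Agent.helper69.SLG.LocA

set_option autoImplicit false

/-!
# The Frobenius case (helper69)
-/

namespace Pool.Agent.helper69.SLG

open NumberField Module Polynomial UniqueFactorizationMonoid IntermediateField
open scoped Pointwise

section

variable {E : Type*} [Field E] [NumberField E]

/-- two automorphisms which agree on generators agree -/
lemma ext_gen (K : IntermediateField ℚ E) {Z : E} (htop : K ⊔ ℚ⟮Z⟯ = ⊤) {σ τ : E ≃ₐ[ℚ] E}
    (h1 : ∀ c ∈ K, σ c = τ c) (h2 : σ Z = τ Z) : σ = τ := by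
  have h3 : τ⁻¹ * σ ∈ (K ⊔ ℚ⟮Z⟯).fixingSubgroup := by
    rw [IntermediateField.mem_fixingSubgroup_iff]
    have h4 : K ⊔ ℚ⟮Z⟯ ≤ IntermediateField.fixedField (Subgroup.zpowers (τ⁻¹ * σ)) := by
      rw [sup_le_iff, adjoin_simple_le_iff]
      have key : ∀ c, σ c = τ c → c ∈ IntermediateField.fixedField (Subgroup.zpowers (τ⁻¹ * σ)) := by
        intro c hc
        rw [IntermediateField.mem_fixedField_iff]
        intro f hf
        have h5 : (τ⁻¹ * σ) ∈ MulAction.stabilizer (E ≃ₐ[ℚ] E) c := by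
          rw [MulAction.mem_stabilizer_iff]
          show (τ⁻¹ * σ) c = c
          rw [AlgEquiv.mul_apply, hc, ← AlgEquiv.mul_apply, inv_mul_cancel, AlgEquiv.one_apply]
        have h6 := (Subgroup.zpowers_le.2 h5) hf
        exact h6
      exact ⟨fun c hc => key c (h1 c hc), key Z h2⟩
    intro c hc
    have h5 := h4 hc
    rw [IntermediateField.mem_fixedField_iff] at h5
    exact h5 _ (Subgroup.mem_zpowers _)
  rw [htop, IntermediateField.fixingSubgroup_top, Subgroup.mem_bot] at h3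
  rw [inv_mul_eq_one] at h3
  exact h3.symm

/-- automorphisms which fix the normal subfield `K` are central if `E = K(Z)`, `Z` a root of
unity -/
lemma central (K : IntermediateField ℚ E) [Normal ℚ K] {m : ℕ} [NeZero m] {Z : E}
    (hZ : IsPrimitiveRoot Z m) (htop : K ⊔ ℚ⟮Z⟯ = ⊤) {σ : E ≃ₐ[ℚ] E}
    (h1 : ∀ c ∈ K, σ c = c) (g : E ≃ₐ[ℚ] E) : g * σ = σ * g := by
  apply ext_gen K htop
  · intro c hc
    rw [AlgEquiv.mul_apply, AlgEquiv.mul_apply, h1 c hc]
    have h2 : g c ∈ K := by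
      have h3 := AlgEquiv.restrictNormal_commutes g K ⟨c, hc⟩
      have h4 : algebraMap K E (g.restrictNormal K ⟨c, hc⟩) = g c := h3
      rw [← h4]
      exact (g.restrictNormal K ⟨c, hc⟩).2
    rw [h1 _ h2]
  · rw [AlgEquiv.mul_apply, AlgEquiv.mul_apply, ← hZ.autToPow_spec ℚ σ, ← hZ.autToPow_spec ℚ g,
      map_pow, map_pow, ← hZ.autToPow_spec ℚ σ, ← hZ.autToPow_spec ℚ g, ← pow_mul, ← pow_mul,
      mul_comm]

lemma smul_coe (σ : E ≃ₐ[ℚ] E) (c : 𝓞 E) : ((σ • c : 𝓞 E) : E) = σ (c : E) := rfl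

lemma LocDeg.of_hom {p D : ℕ} {K' : Type*} [Field K'] [NumberField K'] (φ : K' →+* E)
    (h : LocDeg p D E) : LocDeg p D K' := by
  let : Algebra K' E := φ.toAlgebra
  intro P' hP' hmem
  obtain ⟨⟨P, hP, hlo⟩⟩ := (inferInstance : Nonempty (P'.primesOver (𝓞 E)))
  have hmemP : (p : 𝓞 E) ∈ P := by
    have h1 := hlo.over
    have h2 : algebraMap (𝓞 K') (𝓞 E) (p : 𝓞 K') ∈ P := by
      rw [h1] at hmem
      exact hmem
    rwa [map_natCast] at h2
  have h1 := h P hP hmemP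
  have h2 : P'.ramificationIdx ℤ ≤ P.ramificationIdx ℤ := Ideal.ramificationIdx_below_le P' P
  have h3 : P'.inertiaDeg ℤ ≤ P.inertiaDeg ℤ := Ideal.inertiaDeg_below_le P' P
  exact (Nat.mul_le_mul h2 h3).trans h1

end

section frob

variable {E : Type*} [Field E] [NumberField E] [IsGalois ℚ E]

lemma frob_aux (p : ℕ) (hp : p.Prime) (P : Ideal (𝓞 E)) [P.IsPrime] (hP : (p : 𝓞 E) ∈ P) :
    ∃ φ : Gal(E/ℚ), φ • P = P ∧ ∀ (i : ℕ) (c : 𝓞 E), (φ ^ i) • c - c ^ (p ^ i) ∈ P := by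
  have hlo := liesOver_of_mem p hp P hP
  have hbot : P ≠ ⊥ := by
    rintro rfl
    have : (p : 𝓞 E) = 0 := by simpa using hP
    exact hp.ne_zero (by exact_mod_cast this)
  have hfin : Finite (𝓞 E ⧸ P) := Ring.HasFiniteQuotients.finiteQuotient hbot
  obtain ⟨φ, hφ⟩ := IsArithFrobAt.exists_of_isInvariant ℤ Gal(E/ℚ) P
  have hcard : Nat.card (ℤ ⧸ P.under ℤ) = p := by
    rw [← hlo.over]
    rw [Nat.card_congr (Int.quotientSpanNatEquivZMod p).toEquiv, Nat.card_zmod]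
  have hφ' : ∀ c : 𝓞 E, φ • c - c ^ p ∈ P := by
    intro c
    have h1 := hφ c
    rw [hcard] at h1
    exact h1
  refine ⟨φ, hφ.mem_stabilizer, ?_⟩
  intro i
  induction i with
  | zero => intro c; simp
  | succ i ih =>
    intro c
    have h1 := hφ' (φ ^ i • c)
    have h2 := ih c
    have h3 : (φ ^ i • c) ^ p - (c ^ (p ^ i)) ^ p ∈ P :=
      Ideal.mem_of_dvd P (sub_dvd_pow_sub_pow _ _ p) h2
    have h4 := add_mem h1 h3
    rw [pow_succ', mul_smul, pow_succ, pow_mul]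
    convert h4 using 1
    ring

/-- the number of elements of the decomposition group -/
lemma card_stab (p : ℕ) (hp : p.Prime) (P : Ideal (𝓞 E)) [P.IsPrime] (hP : (p : 𝓞 E) ∈ P) :
    Nat.card (MulAction.stabilizer Gal(E/ℚ) P) = P.ramificationIdx ℤ * P.inertiaDeg ℤ := by
  have hlo := liesOver_of_mem p hp P hP
  have hmax : (Ideal.span {(p : ℤ)}).IsMaximal :=
    PrincipalIdealRing.isMaximal_of_irreducible (Nat.prime_iff_prime_int.1 hp).irreducible
  have hfin : Finite (ℤ ⧸ Ideal.span {(p : ℤ)}) := by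
    apply Ring.HasFiniteQuotients.finiteQuotient
    rw [Ne, Ideal.span_singleton_eq_bot]
    exact_mod_cast hp.ne_zero
  rw [Ideal.card_stabilizer_eq (Ideal.span {(p : ℤ)}) P,
    Ideal.ramificationIdxIn_eq_ramificationIdx (Ideal.span {(p : ℤ)}) P Gal(E/ℚ),
    Ideal.inertiaDegIn_eq_inertiaDeg (Ideal.span {(p : ℤ)}) P Gal(E/ℚ)]

omit [IsGalois ℚ E] in
lemma exists_prime (p : ℕ) (hp : p.Prime) :
    ∃ P : Ideal (𝓞 E), P.IsPrime ∧ (p : 𝓞 E) ∈ P := by
  have hpr : (Ideal.span {(p : ℤ)}).IsPrime := by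
    rw [Ideal.span_singleton_prime (by exact_mod_cast hp.ne_zero)]
    exact Nat.prime_iff_prime_int.1 hp
  obtain ⟨⟨P₀, hP₀, hlo⟩⟩ :=
    (inferInstance : Nonempty ((Ideal.span {(p : ℤ)}).primesOver (𝓞 E)))
  refine ⟨P₀, hP₀, ?_⟩
  have h1 : (p : ℤ) ∈ P₀.under ℤ := by
    rw [← hlo.over]
    exact Ideal.mem_span_singleton_self _
  rw [Ideal.mem_comap, eq_intCast, Int.cast_natCast] at h1
  exact h1

omit [IsGalois ℚ E] in
/-- an automorphism in the decomposition group has trivial `D !`-th power on `K` -/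
lemma pow_trivial (p D : ℕ) (hp : p.Prime) (K : IntermediateField ℚ E) [Normal ℚ K]
    (hD : LocDeg p D K) (P : Ideal (𝓞 E)) [P.IsPrime] (hP : (p : 𝓞 E) ∈ P) (φ : Gal(E/ℚ))
    (hφ : φ • P = P) : ∀ c ∈ K, (φ ^ D.factorial) c = c := by
  have : IsGalois ℚ K := {}
  set PK : Ideal (𝓞 K) := P.under (𝓞 K) with hPK
  have hPKp : PK.IsPrime := Ideal.IsPrime.under (𝓞 K) P
  have hmem : (p : 𝓞 K) ∈ PK := by
    rw [hPK, Ideal.mem_comap, map_natCast]
    exact hP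
  set g : Gal(K/ℚ) := AlgEquiv.restrictNormalHom K φ with hg
  have hcomm : ∀ c : K, (((AlgEquiv.restrictNormalHom K φ) c : K) : E) = φ c := fun c =>
    AlgEquiv.restrictNormal_commutes φ K c
  have hgc : ∀ c : 𝓞 K, algebraMap (𝓞 K) (𝓞 E) (g • c) = φ • (algebraMap (𝓞 K) (𝓞 E) c) := by
    intro c
    apply RingOfIntegers.ext
    exact hcomm (c : K)
  have hst : g ∈ MulAction.stabilizer Gal(K/ℚ) PK := by
    rw [MulAction.mem_stabilizer_iff]
    ext c
    rw [Ideal.mem_pointwise_smul_iff_inv_smul_mem, hPK, Ideal.mem_comap, Ideal.mem_comap]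
    have h1 := hgc (g⁻¹ • c)
    rw [smul_inv_smul] at h1
    rw [h1]
    conv_rhs => rw [← hφ]
    rw [Ideal.smul_mem_pointwise_smul_iff]
  have hcard := card_stab p hp PK hmem
  have hle := hD PK hPKp hmem
  have hpos : 0 < PK.ramificationIdx ℤ * PK.inertiaDeg ℤ :=
    Nat.mul_pos (PK.ramificationIdx_pos ℤ) (PK.inertiaDeg_pos ℤ)
  have h1 : orderOf g ∣ D.factorial :=
    ((Subgroup.orderOf_dvd_natCard _ hst).trans (dvd_of_eq hcard)).trans
      (Nat.dvd_factorial hpos hle)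
  have h2 : g ^ D.factorial = 1 := orderOf_dvd_iff_pow_eq_one.1 h1
  intro c hc
  have h3 := AlgEquiv.restrictNormal_commutes (φ ^ D.factorial) K ⟨c, hc⟩
  have h4 : (φ ^ D.factorial).restrictNormal K = g ^ D.factorial := by
    rw [hg, ← map_pow]
    rfl
  rw [h4, h2] at h3
  exact h3.symm

/-- **The Frobenius case.** -/
lemma frob (p D : ℕ) (hp : p.Prime) (K : IntermediateField ℚ E) [Normal ℚ K]
    (hD : LocDeg p D K) {m : ℕ} [NeZero m] {Z : E} (hZ : IsPrimitiveRoot Z m)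
    (htop : K ⊔ ℚ⟮Z⟯ = ⊤) :
    ∃ σ : Gal(E/ℚ), ∀ (P : Ideal (𝓞 E)), P.IsPrime → (p : 𝓞 E) ∈ P → ∀ c : 𝓞 E,
      σ • c - c ^ (p ^ D.factorial) ∈ P := by
  obtain ⟨P₀, hP₀, hmem₀⟩ := exists_prime (E := E) p hp
  obtain ⟨φ, hφ, hφ'⟩ := frob_aux p hp P₀ hmem₀
  refine ⟨φ ^ D.factorial, fun P hP hmem c => ?_⟩
  have hcen := central K hZ htop (pow_trivial p D hp K hD P₀ hmem₀ φ hφ)
  obtain ⟨g, rfl⟩ := exists_smul p hp P₀ P hmem₀ hmem
  have h1 := hφ' D.factorial (g⁻¹ • c)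
  rw [Ideal.mem_pointwise_smul_iff_inv_smul_mem]
  have h2 : g⁻¹ • (φ ^ D.factorial • c - c ^ p ^ D.factorial) =
      φ ^ D.factorial • g⁻¹ • c - (g⁻¹ • c) ^ p ^ D.factorial := by
    rw [smul_sub, smul_pow', ← mul_smul, ← mul_smul, hcen g⁻¹]
  rw [h2]
  exact h1

end frob

end Pool.Agent.helper69.SLG
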