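import Pool.Agent.helper69.SLG.LocB

set_option autoImplicit false

/-!
# The wild case: iterates of an element of the wild inertia group (helper69)
-/

namespace Pool.Agent.helper69.SLG

open NumberField Module Finset
open scoped Pointwise

section

variable {E : Type*} [Field E] [NumberField E]

/-- `τ - 1` raises the order at `P` by at least `s` -/
def Mv (P : Ideal (𝓞 E)) (τ : Gal(E/ℚ)) (s : ℕ) : Prop :=
  ∀ (i : ℕ), ∀ c ∈ P ^ i, τ • c - c ∈ P ^ (i + s)

lemma Mv.mono {P : Ideal (𝓞 E)} {τ : Gal(E/ℚ)} {s s' : ℕ} (h : Mv P τ s) (hs : s' ≤ s) :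
    Mv P τ s' := fun i c hc => Ideal.pow_le_pow_right (by omega) (h i c hc)

lemma wild_two (p j : ℕ) (hp : p.Prime) (P : Ideal (𝓞 E)) [hP : P.IsPrime]
    (hmem : (p : 𝓞 E) ∈ P) (τ : Gal(E/ℚ)) (hτ : τ ^ (p ^ j) = 1)
    (h : ∀ c : 𝓞 E, τ • c - c ∈ P) : ∀ c ∈ P, τ • c - c ∈ P ^ 2 := by
  have hbot : P ≠ ⊥ := by
    rintro rfl
    have : (p : 𝓞 E) = 0 := by simpa using hmem
    exact hp.ne_zero (by exact_mod_cast this)
  have hmax : P.IsMaximal := hP.isMaximal hbot
  have hst1 : ∀ c ∈ P, τ • c ∈ P := by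
    intro c hc
    have := add_mem (h c) hc
    rwa [sub_add_cancel] at this
  have hst2 : ∀ c ∈ P ^ 2, τ • c ∈ P ^ 2 := by
    intro c hc
    rw [pow_two] at hc ⊢
    induction hc using Submodule.mul_induction_on' with
    | mem_mul_mem a ha b hb =>
      have e1 : τ • (a * b) = τ • a * τ • b := smul_mul' τ a b
      rw [e1]
      exact Ideal.mul_mem_mul (hst1 a ha) (hst1 b hb)
    | add a _ b _ ha hb =>
      rw [smul_add]
      exact add_mem ha hb
  have hle : P ^ 2 ≤ P := Ideal.pow_le_self (by norm_num)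
  obtain ⟨t, ht⟩ := IsDedekindDomain.exists_sup_span_eq hle (pow_ne_zero 2 (by
    rw [Ideal.zero_eq_bot]; exact hbot))
  have htP : t ∈ P := by
    rw [← ht]
    exact Ideal.mem_sup_right (Ideal.mem_span_singleton_self t)
  have key : ∀ c ∈ P, ∃ u : 𝓞 E, c - u * t ∈ P ^ 2 := by
    intro c hc
    rw [← ht] at hc
    obtain ⟨z, hz, w, hw, rfl⟩ := Submodule.mem_sup.1 hc
    obtain ⟨u, rfl⟩ := Ideal.mem_span_singleton'.1 hw
    exact ⟨u, by simpa using hz⟩
  obtain ⟨u, hu⟩ := key (τ • t) (hst1 t htP)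
  have hsm : ∀ {x y : 𝓞 E}, x ∈ P → y ∈ P → x * y ∈ P ^ 2 := by
    intro x y hx hy
    rw [pow_two]
    exact Ideal.mul_mem_mul hx hy
  have hit : ∀ n : ℕ, (τ ^ n) • t - u ^ n * t ∈ P ^ 2 := by
    intro n
    induction n with
    | zero => simp
    | succ n ih =>
      have h1 := hst2 _ ih
      rw [smul_sub, ← mul_smul, ← pow_succ', smul_mul', smul_pow'] at h1
      have h2 : (τ • u) ^ n - u ^ n ∈ P := Ideal.mem_of_dvd P (sub_dvd_pow_sub_pow _ _ n) (h u)
      have h3 : (τ • u) ^ n * (τ • t - u * t) ∈ P ^ 2 := Ideal.mul_mem_left _ _ hu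
      have h4 : ((τ • u) ^ n - u ^ n) * (u * t) ∈ P ^ 2 := hsm h2 (Ideal.mul_mem_left _ _ htP)
      have h5 := add_mem (add_mem h1 h3) h4
      convert h5 using 1
      ring
  have h1 := hit (p ^ j)
  rw [hτ, one_smul] at h1
  have hu1 : u ^ (p ^ j) - 1 ∈ P := by
    by_contra hcon
    obtain ⟨y, q, hq, hyq⟩ : ∃ y, ∃ q ∈ P, y * (u ^ (p ^ j) - 1) + q = 1 := by
      have h2 := hmax.exists_inv hcon
      obtain ⟨y, q, hq, h3⟩ := h2
      exact ⟨y, q, hq, h3⟩
    have h3 : t ∈ P ^ 2 := by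
      have e1 : t = -y * (t - u ^ (p ^ j) * t) + q * t := by
        linear_combination (-t) * hyq
      rw [e1]
      exact add_mem (Ideal.mul_mem_left _ _ h1) (hsm hq htP)
    have h4 : P ^ 2 = P := by
      apply le_antisymm hle
      conv_lhs => rw [← ht]
      rw [sup_le_iff]
      exact ⟨le_rfl, (Ideal.span_singleton_le_iff_mem _).2 h3⟩
    have h5 : P * P = P * 1 := by rw [mul_one, ← pow_two, h4]
    have h6 : P = 1 := mul_left_cancel₀ (by rw [Ne, Ideal.zero_eq_bot]; exact hbot) h5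
    exact hP.ne_top (by rw [h6, Ideal.one_eq_top])
  have hu2 : u - 1 ∈ P := by
    apply hP.mem_of_pow_mem (p ^ j)
    have h2 := add_pow_sub_mem p j hp (⊤ : Ideal (𝓞 E)) (x := u - 1) (y := 1) trivial trivial
    have h3 : Ideal.span {(p : 𝓞 E)} * (⊤ : Ideal (𝓞 E)) ^ (p ^ j) ≤ P := by
      refine Ideal.mul_le_left.trans ?_
      rw [Ideal.span_singleton_le_iff_mem]
      exact hmem
    have h4 := sub_mem hu1 (h3 h2)
    convert h4 using 1
    rw [sub_add_cancel, one_pow]
    ring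
  have htt : τ • t - t ∈ P ^ 2 := by
    have h2 := add_mem hu (hsm hu2 htP)
    convert h2 using 1
    ring
  intro c hc
  obtain ⟨v, hv⟩ := key c hc
  have h2 := sub_mem (hst2 _ hv) hv
  rw [smul_sub, smul_mul'] at h2
  have h3 : τ • v * (τ • t - t) ∈ P ^ 2 := Ideal.mul_mem_left _ _ htt
  have h4 : (τ • v - v) * t ∈ P ^ 2 := hsm (h v) htP
  have h5 := add_mem (add_mem h2 h3) h4
  convert h5 using 1
  ring

lemma wild_one (p j : ℕ) (hp : p.Prime) (P : Ideal (𝓞 E)) [hP : P.IsPrime]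
    (hmem : (p : 𝓞 E) ∈ P) (τ : Gal(E/ℚ)) (hτ : τ ^ (p ^ j) = 1)
    (h : ∀ c : 𝓞 E, τ • c - c ∈ P) : Mv P τ 1 := by
  intro i
  induction i with
  | zero =>
    intro c _
    rw [zero_add, pow_one]
    exact h c
  | succ i ih =>
    intro c hc
    rw [pow_succ] at hc
    induction hc using Submodule.mul_induction_on' with
    | mem_mul_mem a ha b hb =>
      have h1 := ih a ha
      have h2 := wild_two p j hp P hmem τ hτ h b hb
      have ha' : τ • a ∈ P ^ i := by
        have := add_mem (Ideal.pow_le_pow_right (Nat.le_succ i) h1) ha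
        rwa [sub_add_cancel] at this
      have e1 : τ • (a * b) - a * b = τ • a * (τ • b - b) + (τ • a - a) * b := by
        rw [smul_mul']
        ring
      rw [e1]
      refine add_mem ?_ ?_
      · have e2 : P ^ (i + 1 + 1) = P ^ i * P ^ 2 := by rw [← pow_add]
        rw [e2]
        exact Ideal.mul_mem_mul ha' h2
      · rw [pow_succ]
        exact Ideal.mul_mem_mul h1 hb
    | add a _ b _ ha hb =>
      rw [smul_add]
      have := add_mem ha hb
      convert this using 1
      ring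

/-- the `p`-th power -/
lemma Mv.pow_p {P : Ideal (𝓞 E)} {τ : Gal(E/ℚ)} {s : ℕ} (h : Mv P τ s) (p e : ℕ) (hp : p.Prime)
    (hmem : (p : 𝓞 E) ∈ P ^ e) : Mv P (τ ^ p) (min (p * s) (s + e)) := by
  intro i c hc
  set T : Module.End ℤ (𝓞 E) := DistribSMul.toLinearMap ℤ (𝓞 E) τ with hT
  set N : Module.End ℤ (𝓞 E) := T - 1 with hN
  have hTc : ∀ c, T c = τ • c := fun c => rfl
  have hNk : ∀ k : ℕ, (N ^ k) c ∈ P ^ (i + k * s) := by
    intro k
    induction k with
    | zero => simpa using hc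
    | succ k ih =>
      rw [pow_succ', Module.End.mul_apply, hN, LinearMap.sub_apply, Module.End.one_apply, hTc]
      have h1 := h (i + k * s) _ ih
      rw [hN] at h1
      have e1 : i + (k + 1) * s = i + k * s + s := by ring
      rw [e1]
      exact h1
  have hTk : ∀ k : ℕ, (T ^ k) c = τ ^ k • c := by
    intro k
    induction k with
    | zero => simp
    | succ k ih => rw [pow_succ', Module.End.mul_apply, ih, hTc, pow_succ', mul_smul]
  have hT1 : T = N + 1 := by rw [hN, sub_add_cancel]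
  have h1 : τ ^ p • c = ∑ k ∈ range (p + 1), (p.choose k : 𝓞 E) * (N ^ k) c := by
    rw [← hTk, hT1, (Commute.one_right N).add_pow, LinearMap.sum_apply]
    refine Finset.sum_congr rfl fun k _ => ?_
    rw [one_pow, mul_one, Module.End.mul_apply, Module.End.natCast_apply, map_nsmul,
      nsmul_eq_mul]
  rw [h1, Finset.sum_range_succ', pow_zero, Nat.choose_zero_right, Nat.cast_one, one_mul,
    Module.End.one_apply, add_sub_cancel_right]
  refine sum_mem fun k hk => ?_
  rw [Finset.mem_range] at hk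
  by_cases hkp : k + 1 = p
  · refine Ideal.mul_mem_left _ _ (Ideal.pow_le_pow_right ?_ (hNk (k + 1)))
    rw [hkp]
    have := min_le_left (p * s) (s + e)
    omega
  · obtain ⟨c', hc'⟩ := hp.dvd_choose_self (k := k + 1) (by omega) (by omega)
    have h2 : (p.choose (k + 1) : 𝓞 E) * (N ^ (k + 1)) c = (p : 𝓞 E) * (c' * (N ^ (k + 1)) c) := by
      rw [hc']
      push_cast
      ring
    rw [h2]
    have h3 : (p : 𝓞 E) * (c' * (N ^ (k + 1)) c) ∈ P ^ e * P ^ (i + (k + 1) * s) :=
      Ideal.mul_mem_mul hmem (Ideal.mul_mem_left _ _ (hNk (k + 1)))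
    rw [← pow_add] at h3
    refine Ideal.pow_le_pow_right ?_ h3
    have h4 := min_le_right (p * s) (s + e)
    have h5 : s ≤ (k + 1) * s := Nat.le_mul_of_pos_left s (Nat.succ_pos k)
    omega

lemma Mv.iterate {P : Ideal (𝓞 E)} {τ : Gal(E/ℚ)} (h : Mv P τ 1) (p e : ℕ) (hp : p.Prime)
    (hmem : (p : 𝓞 E) ∈ P ^ e) (j : ℕ) : Mv P (τ ^ (p ^ j)) (min (p ^ j) e) := by
  induction j with
  | zero =>
    rw [pow_zero, pow_one]
    exact h.mono (min_le_left _ _)
  | succ j ih =>
    have h1 := ih.pow_p p e hp hmem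
    rw [← pow_mul, ← pow_succ] at h1
    refine h1.mono ?_
    have hpj : 0 < p ^ j := pow_pos hp.pos j
    rcases le_total (p ^ j) e with h2 | h2
    · rw [min_eq_left h2]
      refine min_le_min ?_ (Nat.le_add_left _ _)
      rw [pow_succ, mul_comm]
    · rw [min_eq_right h2]
      refine le_min ?_ ?_
      · exact (min_le_right _ _).trans (Nat.le_mul_of_pos_left e hp.pos)
      · exact (min_le_right _ _).trans (Nat.le_add_left _ _)

end

end Pool.Agent.helper69.SLG
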