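import Pool.Agent.helper69.SLG.LocC

set_option autoImplicit false

/-!
# The ramified case (helper69)
-/

namespace Pool.Agent.helper69.SLG

open NumberField Module UniqueFactorizationMonoid IntermediateField
open scoped Pointwise

section

variable {E : Type*} [Field E] [NumberField E]

lemma p_mem_pow (p : ℕ) (hp : p.Prime) (P : Ideal (𝓞 E)) [P.IsPrime] (hmem : (p : 𝓞 E) ∈ P) :
    (p : 𝓞 E) ∈ P ^ (P.ramificationIdx ℤ) := by
  classical
  have hp0 : Ideal.span {(p : 𝓞 E)} ≠ 0 := span_p_ne_bot p hp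
  have hlo := liesOver_of_mem p hp P hmem
  have hbot : P ≠ ⊥ := by
    rintro rfl
    have : (p : 𝓞 E) = 0 := by simpa using hmem
    exact hp.ne_zero (by exact_mod_cast this)
  have h3 := Ideal.IsDedekindDomain.ramificationIdx_eq_normalizedFactors_count
    (Ideal.span {(p : ℤ)}) P (by rw [map_p]; exact hp0)
  rw [map_p] at h3
  have hPp : Prime P := Ideal.prime_of_isPrime hbot inferInstance
  rw [← Ideal.span_singleton_le_iff_mem, ← Ideal.dvd_iff_le, pow_dvd_iff_le_emultiplicity,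
    emultiplicity_eq_count_normalizedFactors hPp.irreducible hp0, normalize_eq, h3]

lemma cong_of_mem (p a : ℕ) (hp : p.Prime) (x y : 𝓞 E)
    (h : ∀ P : Ideal (𝓞 E), P.IsPrime → (p : 𝓞 E) ∈ P →
      ∃ s, x - y ∈ P ^ s ∧ P.ramificationIdx ℤ ≤ s * p ^ a) :
    (p : 𝓞 E) ∣ x ^ (p ^ a) - y ^ (p ^ a) := by
  have h1 : (p : 𝓞 E) ∣ (x - y) ^ (p ^ a) := by
    apply dvd_of_mem_pow p hp
    intro P hP hmem
    obtain ⟨s, hs1, hs2⟩ := h P hP hmem
    have h2 : (x - y) ^ (p ^ a) ∈ P ^ (s * p ^ a) := by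
      rw [pow_mul]
      exact Ideal.pow_mem_pow hs1 _
    exact Ideal.pow_le_pow_right hs2 h2
  have h2 := sub_pow_sub_mem p a hp (⊤ : Ideal (𝓞 E)) (x := x) (y := y) trivial trivial
  have h3 : (p : 𝓞 E) ∣ x ^ p ^ a - y ^ p ^ a - (x - y) ^ p ^ a := by
    rw [← Ideal.mem_span_singleton]
    exact Ideal.mul_le_left h2
  have h4 := dvd_add h3 h1
  rwa [sub_add_cancel] at h4

end

section

variable {E : Type*} [Field E] [NumberField E] [IsGalois ℚ E]

/-- the ramification index and the inertia group over `K` -/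
lemma ram_le (p D : ℕ) (hp : p.Prime) (K : IntermediateField ℚ E) (hD : LocDeg p D K)
    (P : Ideal (𝓞 E)) [P.IsPrime] (hmem : (p : 𝓞 E) ∈ P) :
    P.ramificationIdx ℤ ≤ D * Nat.card (P.inertia Gal(E/K)) := by
  have : IsGalois K E := IsGalois.tower_top_intermediateField K
  have hgal : IsGaloisGroup Gal(E/K) (𝓞 K) (𝓞 E) :=
    IsGaloisGroup.of_isFractionRing _ (𝓞 K) (𝓞 E) K E
  set PK : Ideal (𝓞 K) := P.under (𝓞 K) with hPK
  have hPKp : PK.IsPrime := Ideal.IsPrime.under (𝓞 K) P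
  have hlo : P.LiesOver PK := ⟨rfl⟩
  have hmemK : (p : 𝓞 K) ∈ PK := by
    rw [hPK, Ideal.mem_comap, map_natCast]
    exact hmem
  have hbot : PK ≠ ⊥ := by
    intro hb
    rw [hb] at hmemK
    have : (p : 𝓞 K) = 0 := by simpa using hmemK
    exact hp.ne_zero (by exact_mod_cast this)
  have hmax : PK.IsMaximal := hPKp.isMaximal hbot
  have hfin : Finite (𝓞 K ⧸ PK) := Ring.HasFiniteQuotients.finiteQuotient hbot
  have h1 := Ideal.card_inertia_eq_ramificationIdxIn (G := Gal(E/K)) PK P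
  rw [Ideal.ramificationIdxIn_eq_ramificationIdx PK P Gal(E/K)] at h1
  have h2 : P.ramificationIdx ℤ = PK.ramificationIdx ℤ * P.ramificationIdx (𝓞 K) :=
    Ideal.ramificationIdx_tower PK P
  rw [h2, h1]
  apply Nat.mul_le_mul_right
  have h3 := hD PK hPKp hmemK
  exact (Nat.le_mul_of_pos_right _ (PK.inertiaDeg_pos ℤ)).trans h3

end

end Pool.Agent.helper69.SLG
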