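import Pool.Agent.helper69.SLG.LocD

set_option autoImplicit false

/-!
# The ramified case, main lemma (helper69)
-/

namespace Pool.Agent.helper69.SLG

open NumberField Module UniqueFactorizationMonoid IntermediateField
open scoped Pointwise

lemma lte (p n s : ℕ) (hp : p.Prime) (hn : 1 ≤ n) (hs4 : p = 2 → s ≡ 1 [MOD 4])
    (h : s ^ p ≡ 1 [MOD p ^ n]) : s * p ≡ p [MOD p ^ n] := by
  have : Fact p.Prime := ⟨hp⟩
  obtain ⟨n, rfl⟩ : ∃ k, n = k + 1 := ⟨n - 1, by omega⟩
  have h1 : ((p : ℤ) ^ (n + 1)) ∣ (s : ℤ) ^ p - 1 ^ p := by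
    have := (Nat.modEq_iff_dvd.1 h.symm)
    rw [one_pow]
    exact_mod_cast this
  have key : (p : ℤ) ^ n ∣ (s : ℤ) - 1 := by
    rcases eq_or_ne p 2 with rfl | hp2
    · have h2 := hs4 rfl
      obtain ⟨t, ht⟩ : ∃ t : ℕ, s = 4 * t + 1 := by
        have h3 : s % 4 = 1 := h2
        exact ⟨s / 4, by omega⟩
      have e1 : (s : ℤ) ^ 2 - 1 ^ 2 = 2 * (((s : ℤ) - 1) * (2 * (t : ℤ) + 1)) := by
        rw [ht]
        push_cast
        ring
      rw [e1, Nat.cast_ofNat, pow_succ'] at h1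
      have h3 : (2 : ℤ) ^ n ∣ ((s : ℤ) - 1) * (2 * (t : ℤ) + 1) :=
        (mul_dvd_mul_iff_left (by norm_num)).1 h1
      have hcop : IsCoprime ((2 : ℤ) ^ n) (2 * (t : ℤ) + 1) :=
        IsCoprime.pow_left ⟨-(t : ℤ), 1, by ring⟩
      rw [Nat.cast_ofNat]
      exact hcop.dvd_of_dvd_mul_right h3
    · have hps : (p : ℤ) ∣ (s : ℤ) - 1 := by
        have h2 : (p : ℤ) ∣ (s : ℤ) ^ p - 1 := by
          have := (dvd_pow_self (p : ℤ) (Nat.succ_ne_zero n)).trans h1
          rwa [one_pow] at this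
        rw [← ZMod.intCast_zmod_eq_zero_iff_dvd] at h2 ⊢
        push_cast at h2 ⊢
        rwa [ZMod.pow_card] at h2
      have hns : ¬ (p : ℤ) ∣ (s : ℤ) := by
        intro h3
        have h4 := dvd_sub h3 hps
        rw [sub_sub_cancel] at h4
        exact hp.one_lt.ne' (by exact_mod_cast Int.eq_one_of_dvd_one (by positivity) h4)
      have h2 := Int.emultiplicity_pow_sub_pow hp (hp.odd_of_ne_two hp2) hps hns p
      have h3 : emultiplicity p p = 1 := by
        have : Nat.Prime p := hp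
        exact (Nat.Prime.emultiplicity_self hp)
      rw [h3] at h2
      rw [pow_dvd_iff_le_emultiplicity, h2] at h1
      have h4 : (n : ℕ∞) ≤ emultiplicity (p : ℤ) ((s : ℤ) - 1) := by
        push_cast at h1
        exact (ENat.add_le_add_iff_right (by norm_num)).1 h1
      rwa [← pow_dvd_iff_le_emultiplicity] at h4
  have h5 : (p : ℤ) ^ (n + 1) ∣ (s : ℤ) * p - p := by
    have := mul_dvd_mul_right key (p : ℤ)
    rw [← pow_succ, sub_mul, one_mul] at this
    exact this
  exact (Nat.modEq_iff_dvd.2 (by exact_mod_cast h5)).symm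

/-- a large cyclic subgroup -/
lemma cyc_sub (p n : ℕ) (hp : p.Prime) (hn : 2 ≤ n) {I : Type*} [Group I] [Finite I]
    (f : I →* (ZMod (p ^ n))ˣ) (hf : Function.Injective f) :
    ∃ J : Subgroup I, Nat.card I ≤ 2 * Nat.card J ∧ IsCyclic J ∧
      (p = 2 → ∀ τ ∈ J, ((f τ : ZMod (p ^ n))).val ≡ 1 [MOD 4]) := by
  rcases eq_or_ne p 2 with rfl | hp2
  · obtain ⟨n, rfl⟩ : ∃ k, n = k + 2 := ⟨n - 2, by omega⟩
    have h4 : 4 ∣ 2 ^ (n + 2) := Dvd.intro_left (2 ^ n) (by rw [pow_add]; norm_num)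
    have hne : NeZero (2 ^ (n + 2)) := ⟨by positivity⟩
    set g : (ZMod (2 ^ (n + 2)))ˣ →* (ZMod 4)ˣ := ZMod.unitsMap h4 with hg
    have hcard4 : Nat.card (ZMod 4)ˣ = 2 := by
      rw [Nat.card_eq_fintype_card, ZMod.card_units_eq_totient]
      rfl
    have hker : IsCyclic g.ker := by
      have hsurj : Function.Surjective g := ZMod.unitsMap_surjective h4
      have h5 : g.ker.index = 2 := by
        rw [Subgroup.index_ker, MonoidHom.range_eq_top.2 hsurj]
        rw [Nat.card_congr (Subgroup.topEquiv).toEquiv, hcard4]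
      have h6 := g.ker.card_mul_index
      rw [h5, Nat.card_eq_fintype_card (α := (ZMod (2 ^ (n + 2)))ˣ),
        ZMod.card_units_eq_totient, Nat.totient_prime_pow_succ Nat.prime_two] at h6
      have h7 : Nat.card g.ker = 2 ^ n := by
        have : Nat.card g.ker * 2 = 2 ^ n * 2 := by
          rw [h6, pow_succ]
          ring
        omega
      have h5u : IsUnit (5 : ZMod (2 ^ (n + 2))) := by
        have : ((5 : ℕ) : ZMod (2 ^ (n + 2))) = 5 := by norm_num
        rw [← this, ZMod.isUnit_iff_coprime]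
        exact Nat.Coprime.pow_right _ (by norm_num)
      have hmem : h5u.unit ∈ g.ker := by
        rw [MonoidHom.mem_ker]
        apply Units.ext
        rw [hg, ZMod.unitsMap_val]
        have : (h5u.unit : ZMod (2 ^ (n + 2))) = 5 := h5u.unit_spec
        rw [this]
        have h8 : ((5 : ZMod (2 ^ (n + 2))).cast : ZMod 4) = 5 := by
          have := ZMod.cast_natCast h4 5 (R := ZMod 4)
          exact_mod_cast this
        rw [h8]
        rfl
      refine isCyclic_of_orderOf_eq_card (⟨h5u.unit, hmem⟩ : g.ker) ?_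
      rw [h7, ← ZMod.orderOf_five n, ← Subgroup.orderOf_coe, ← orderOf_units]
      rfl
    refine ⟨(g.comp f).ker, ?_, ?_, ?_⟩
    · have h5 := (g.comp f).ker.card_mul_index
      rw [Subgroup.index_ker] at h5
      have h6 : Nat.card (g.comp f).range ≤ 2 :=
        (Nat.card_le_card_of_injective _ Subtype.val_injective).trans hcard4.le
      rw [← h5, mul_comm]
      exact Nat.mul_le_mul_right _ h6
    · let j : (g.comp f).ker →* g.ker :=
        (f.comp (g.comp f).ker.subtype).codRestrict g.ker (fun x => x.2)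
      refine isCyclic_of_injective j ?_
      intro x y hxy
      apply Subtype.ext
      apply hf
      exact congrArg Subtype.val hxy
    · intro _ τ hτ
      have h5 : g (f τ) = 1 := hτ
      have h6 := congrArg Units.val h5
      rw [hg, ZMod.unitsMap_val, Units.val_one] at h6
      rw [← ZMod.natCast_eq_natCast_iff]
      push_cast
      rw [← h6, ZMod.natCast_val]
  · have hpF : Fact p.Prime := ⟨hp⟩
    have hcyc : IsCyclic (ZMod (p ^ n))ˣ := ZMod.isCyclic_units_of_prime_pow p hp hp2 n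
    have hI : IsCyclic I := isCyclic_of_injective f hf
    refine ⟨⊤, ?_, ?_, fun h => absurd h hp2⟩
    · rw [Nat.card_congr (Subgroup.topEquiv (G := I)).toEquiv]
      omega
    · infer_instance

section

variable {E : Type*} [Field E] [NumberField E]

/-- different roots of unity of order prime to `p` are different modulo `P` -/
lemma root_eq (p : ℕ) (hp : p.Prime) (P : Ideal (𝓞 E)) [hP : P.IsPrime] (hmem : (p : 𝓞 E) ∈ P)
    {k : ℕ} (hk : ¬ p ∣ k) {x y : 𝓞 E} (hx : x ^ k = 1) (hy : y ^ k = 1) (h : x - y ∈ P) :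
    x = y := by
  by_contra hne
  have h1 := geom_sum₂_mul x y k
  rw [hx, hy, sub_self] at h1
  have h2 := (mul_eq_zero.1 h1).resolve_right (sub_ne_zero.2 hne)
  have h3 : ∑ i ∈ Finset.range k, x ^ i * y ^ (k - 1 - i) - ∑ i ∈ Finset.range k,
      y ^ i * y ^ (k - 1 - i) ∈ P := by
    rw [← Finset.sum_sub_distrib]
    refine sum_mem fun i _ => ?_
    rw [← sub_mul]
    exact Ideal.mul_mem_right _ _ (Ideal.mem_of_dvd P (sub_dvd_pow_sub_pow _ _ i) h)
  have h4 : ∑ i ∈ Finset.range k, y ^ i * y ^ (k - 1 - i) = k * y ^ (k - 1) := by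
    have h5 : ∀ i ∈ Finset.range k, y ^ i * y ^ (k - 1 - i) = y ^ (k - 1) := by
      intro i hi
      rw [Finset.mem_range] at hi
      rw [← pow_add]
      congr 1
      omega
    rw [Finset.sum_congr rfl h5, Finset.sum_const, Finset.card_range, nsmul_eq_mul]
  rw [h2, h4, zero_sub] at h3
  have h5 : (k : 𝓞 E) * y ^ (k - 1) ∈ P := by simpa using h3
  have hk0 : k ≠ 0 := by
    rintro rfl
    exact hk (dvd_zero p)
  have hyu : y ^ (k - 1) ∉ P := by
    intro h6
    have h7 : y ^ (k - 1) * y ∈ P := Ideal.mul_mem_right _ _ h6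
    rw [← pow_succ, Nat.sub_add_cancel (Nat.pos_of_ne_zero hk0), hy] at h7
    exact hP.ne_top ((Ideal.eq_top_iff_one P).2 h7)
  have h6 : (k : 𝓞 E) ∈ P := (hP.mem_or_mem h5).resolve_right hyu
  have hcop : IsCoprime (p : ℤ) (k : ℤ) :=
    Nat.isCoprime_iff_coprime.2 ((Nat.Prime.coprime_iff_not_dvd hp).2 hk)
  obtain ⟨u, v, huv⟩ := hcop
  apply hP.ne_top
  rw [Ideal.eq_top_iff_one]
  have h7 : (1 : 𝓞 E) = (u : 𝓞 E) * p + (v : 𝓞 E) * k := by exact_mod_cast huv.symm
  rw [h7]
  exact add_mem (Ideal.mul_mem_left _ _ hmem) (Ideal.mul_mem_left _ _ h6)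

lemma inertia_root (p : ℕ) (hp : p.Prime) (P : Ideal (𝓞 E)) [hP : P.IsPrime]
    (hmem : (p : 𝓞 E) ∈ P) (K : IntermediateField ℚ E) (τ : Gal(E/K))
    (hτ : τ ∈ P.inertia Gal(E/K)) {k : ℕ} (hk : ¬ p ∣ k) {v : E} (hv : v ^ k = 1) : τ v = v := by
  have hk0 : 0 < k := by
    rcases Nat.eq_zero_or_pos k with rfl | h
    · exact absurd (dvd_zero p) hk
    · exact h
  have hint : IsIntegral ℤ v := by
    refine IsIntegral.of_pow hk0 ?_
    rw [hv]
    exact isIntegral_one
  set V : 𝓞 E := ⟨v, hint⟩ with hV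
  have hVk : V ^ k = 1 := by
    apply RingOfIntegers.ext
    rw [RingOfIntegers.coe_eq_algebraMap, map_pow, RingOfIntegers.coe_eq_algebraMap, map_one]
    exact hv
  have h1 : τ • V - V ∈ P := AddSubgroup.mem_inertia.1 hτ V
  have h2 : τ • V = V := by
    refine root_eq p hp P hmem hk ?_ hVk h1
    rw [← smul_pow', hVk, smul_one]
  have h3 := congrArg (fun c : 𝓞 E => (c : E)) h2
  exact h3

end

end Pool.Agent.helper69.SLG
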