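import Pool.Agent.helper69.SLG.LocE
import Pool.Agent.helper69.SLR.Gen

set_option autoImplicit false

/-!
# The ramified case, existence of the automorphism (helper69)
-/

namespace Pool.Agent.helper69.SLG

open NumberField Module UniqueFactorizationMonoid IntermediateField
open Pool.Agent.helper69.SLR
open scoped Pointwise

section

variable {E : Type*} [Field E] [NumberField E]

omit [NumberField E] in
/-- splitting a root of unity into its parts of order `q` and `m'` -/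
lemma split_root {q m' : ℕ} (hcop : Nat.Coprime q m') {Z : E} (hZ0 : Z ≠ 0) :
    ∃ u v : ℤ, Z = (Z ^ q) ^ u * (Z ^ m') ^ v := by
  have h : IsCoprime (q : ℤ) (m' : ℤ) := Nat.isCoprime_iff_coprime.2 hcop
  obtain ⟨u, v, huv⟩ := h
  refine ⟨u, v, ?_⟩
  rw [← zpow_natCast, ← zpow_natCast, ← zpow_mul, ← zpow_mul, ← zpow_add₀ hZ0]
  have h2 : (q : ℤ) * u + (m' : ℤ) * v = 1 := by rw [← huv]; ring
  rw [h2, zpow_one]

end

/-- numerical part -/
lemma numer (p D a n N e : ℕ) (hp : p.Prime) (ha : D * p ^ 2 ≤ p ^ a) (hN : N ∣ (p ^ n).totient)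
    (heN : e ≤ D * N) (hbig : D * p ^ (a + 1) < e) :
    a + 2 ≤ n ∧ ∃ k u : ℕ, u ≠ 0 ∧ N = p ^ (k + 1) * u ∧ e ≤ p ^ k * p ^ a := by
  have hN1 : p ^ (a + 1) < N := by
    have h1 : D * p ^ (a + 1) < D * N := lt_of_lt_of_le hbig heN
    exact lt_of_mul_lt_mul_left h1 (Nat.zero_le D)
  have hp1 := hp.one_lt
  have hpa : 1 ≤ p ^ (a + 1) := Nat.one_le_pow _ _ hp.pos
  obtain ⟨n, rfl⟩ : ∃ n', n = n' + 1 := by
    rcases Nat.eq_zero_or_pos n with rfl | h
    · rw [pow_zero, Nat.totient_one] at hN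
      have := Nat.le_of_dvd one_pos hN
      omega
    · exact ⟨n - 1, by omega⟩
  rw [Nat.totient_prime_pow_succ hp] at hN
  have hpos : 0 < p ^ n * (p - 1) := Nat.mul_pos (pow_pos hp.pos n) (by omega)
  have hNle := Nat.le_of_dvd hpos hN
  have hN0 : N ≠ 0 := by omega
  have h2 : p ^ n * (p - 1) < p ^ (n + 1) := by
    rw [pow_succ]
    exact Nat.mul_lt_mul_of_pos_left (by omega) (pow_pos hp.pos n)
  have h3 : a + 1 < n + 1 := (Nat.pow_lt_pow_iff_right hp1).1 (by omega)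
  obtain ⟨k', u, hu, hk'⟩ := Nat.exists_eq_pow_mul_and_not_dvd hN0 p hp1.ne'
  have hu1 : u ∣ p - 1 := by
    have h4 : u ∣ p ^ n * (p - 1) := (Dvd.intro_left _ hk'.symm).trans hN
    exact Nat.Coprime.dvd_of_dvd_mul_left
      (Nat.Coprime.pow_right n ((Nat.Prime.coprime_iff_not_dvd hp).2 hu).symm) h4
  have hu2 : u ≤ p - 1 := Nat.le_of_dvd (by omega) hu1
  have hu0 : u ≠ 0 := by
    rintro rfl
    exact hu (dvd_zero p)
  have hk0 : k' ≠ 0 := by
    rintro rfl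
    rw [pow_zero, one_mul] at hk'
    have h5 : p ≤ p ^ (a + 1) := Nat.le_self_pow (by omega) p
    omega
  obtain ⟨k, rfl⟩ : ∃ k, k' = k + 1 := ⟨k' - 1, by omega⟩
  refine ⟨by omega, k, u, hu0, hk', ?_⟩
  calc e ≤ D * N := heN
    _ = D * (p ^ (k + 1) * u) := by rw [hk']
    _ ≤ D * (p ^ (k + 1) * p) := Nat.mul_le_mul_left _ (Nat.mul_le_mul_left _ (by omega))
    _ = p ^ k * (D * p ^ 2) := by ring
    _ ≤ p ^ k * p ^ a := Nat.mul_le_mul_left _ ha

section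

variable {E : Type*} [Field E] [NumberField E] [IsGalois ℚ E]

/-- **The ramified case.** -/
lemma ram (p D a : ℕ) (hp : p.Prime) (K : IntermediateField ℚ E) [Normal ℚ K]
    (hD : LocDeg p D K) {m : ℕ} [hm0 : NeZero m] {Z : E} (hZ : IsPrimitiveRoot Z m)
    (htop : K ⊔ ℚ⟮Z⟯ = ⊤) (ha : 2 * D * p ^ 2 ≤ p ^ a) (P₀ : Ideal (𝓞 E)) [P₀.IsPrime]
    (hmem₀ : (p : 𝓞 E) ∈ P₀) (hbig : 2 * D * p ^ (a + 1) < P₀.ramificationIdx ℤ) :
    ∃ σ : Gal(E/ℚ), (∀ c ∈ K, σ c = c) ∧ σ ≠ 1 ∧ σ ^ p = 1 ∧ p ^ (a + 2) ∣ m ∧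
      σ (Z ^ p) = Z ^ p ∧ ∀ c : 𝓞 E, (p : 𝓞 E) ∣ c ^ (p ^ a) - (σ • c) ^ (p ^ a) := by
  classical
  have hpF : Fact p.Prime := ⟨hp⟩
  have hp1 := hp.one_lt
  have hm : m ≠ 0 := hm0.ne
  have hmpos : 0 < m := Nat.pos_of_ne_zero hm
  have hZ0 : Z ≠ 0 := hZ.ne_zero hm
  obtain ⟨n, m', hpm', hmn⟩ := Nat.exists_eq_pow_mul_and_not_dvd hm p hp1.ne'
  have hcop : Nat.Coprime (p ^ n) m' :=
    Nat.Coprime.pow_left n ((Nat.Prime.coprime_iff_not_dvd hp).2 hpm')
  obtain ⟨u1, u2, hsplit⟩ := split_root hcop hZ0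
  have hw : IsPrimitiveRoot (Z ^ m') (p ^ n) := hZ.pow hmpos (by rw [hmn, mul_comm])
  have hpn : NeZero (p ^ n) := ⟨(pow_pos hp.pos n).ne'⟩
  have hv1 : (Z ^ (p ^ n)) ^ m' = 1 := by rw [← pow_mul, ← hmn, hZ.pow_eq_one]
  -- the inertia group
  set I := P₀.inertia Gal(E/K) with hI
  have hvfix : ∀ τ : Gal(E/K), τ ∈ I → τ (Z ^ (p ^ n)) = Z ^ (p ^ n) := fun τ hτ =>
    inertia_root p hp P₀ hmem₀ K τ hτ hpm' hv1
  set f : I →* (ZMod (p ^ n))ˣ := (hw.autToPow K).comp I.subtype with hf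
  have hfinj : Function.Injective f := by
    rw [injective_iff_map_eq_one]
    intro τ hτ
    have h1 : (τ : Gal(E/K)) (Z ^ m') = Z ^ m' := by
      have h2 := hw.autToPow_spec K (τ : Gal(E/K))
      have h3 : hw.autToPow K (τ : Gal(E/K)) = 1 := hτ
      rw [h3] at h2
      rw [← h2]
      have h4 : (((1 : (ZMod (p ^ n))ˣ) : ZMod (p ^ n)).val) ≡ 1 [MOD p ^ n] := by
        rw [← ZMod.natCast_eq_natCast_iff, ZMod.natCast_zmod_val]
        simp
      have h5 := pow_eq_of_modEq hw h4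
      rw [h5, pow_one]
    have h2 : (τ : Gal(E/K)) Z = Z := by
      conv_lhs => rw [hsplit]
      rw [map_mul, map_zpow₀, map_zpow₀, h1, hvfix _ τ.2, ← hsplit]
    have h3 : ((τ : Gal(E/K)).restrictScalars ℚ : Gal(E/ℚ)) = 1 := by
      apply ext_gen K htop
      · intro c hc
        exact (τ : Gal(E/K)).commutes ⟨c, hc⟩
      · exact h2
    apply Subtype.ext
    apply AlgEquiv.ext
    intro x
    have h4 := congrArg (fun g : Gal(E/ℚ) => g x) h3
    exact h4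
  have hNdvd : Nat.card I ∣ (p ^ n).totient := by
    rw [← ZMod.card_units_eq_totient, ← Nat.card_eq_fintype_card]
    exact Subgroup.card_dvd_of_injective f hfinj
  have heN := ram_le p D hp K hD P₀ hmem₀
  have hn2 : 2 ≤ n := by
    have h1 := (numer p D a n (Nat.card I) _ hp
      ((Nat.mul_le_mul_right _ (Nat.le_mul_of_pos_left D two_pos)).trans ha) hNdvd heN
      (lt_of_le_of_lt (Nat.mul_le_mul_right _ (Nat.le_mul_of_pos_left D two_pos)) hbig)).1
    omega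
  obtain ⟨J, hJ1, hJcyc, hJ4⟩ := cyc_sub p n hp hn2 f hfinj
  have hJdvd : Nat.card J ∣ (p ^ n).totient := (Subgroup.card_subgroup_dvd_card J).trans hNdvd
  have heJ : P₀.ramificationIdx ℤ ≤ 2 * D * Nat.card J := by
    refine heN.trans ((Nat.mul_le_mul_left D hJ1).trans_eq ?_)
    ring
  obtain ⟨han, k, u, hu0, hNk, hek⟩ := numer p (2 * D) a n (Nat.card J) _ hp ha hJdvd heJ hbig
  obtain ⟨g, hg⟩ := IsCyclic.exists_generator (α := J)
  have hgord : orderOf g = Nat.card J := orderOf_eq_card_of_forall_mem_zpowers hg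
  set τJ : J := g ^ u with hτJ
  have hτordJ : orderOf τJ = p ^ (k + 1) := by
    rw [hτJ, orderOf_pow_of_dvd hu0 (by rw [hgord, hNk]; exact Dvd.intro_left _ rfl), hgord, hNk,
      Nat.mul_div_cancel _ (Nat.pos_of_ne_zero hu0)]
  set τI : I := (τJ : I) with hτI
  have hτord : orderOf τI = p ^ (k + 1) := by
    rw [hτI, Subgroup.orderOf_coe, hτordJ]
  set τ : Gal(E/ℚ) := ((τI : Gal(E/K)).restrictScalars ℚ : Gal(E/ℚ)) with hτ
  have hτpow : ∀ (i : ℕ) (x : E), (τ ^ i) x = ((τI ^ i : I) : Gal(E/K)) x := by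
    intro i
    induction i with
    | zero => intro x; simp
    | succ i ih =>
      intro x
      rw [pow_succ, AlgEquiv.mul_apply, ih, pow_succ, Subgroup.coe_mul, AlgEquiv.mul_apply]
      rfl
  have hτK : ∀ c ∈ K, τ c = c := fun c hc => (τI : Gal(E/K)).commutes ⟨c, hc⟩
  have hτ1 : τ ^ (p ^ (k + 1)) = 1 := by
    apply AlgEquiv.ext
    intro x
    rw [hτpow, ← hτord, pow_orderOf_eq_one]
    rfl
  have hτ2 : τ ^ (p ^ k) ≠ 1 := by
    intro h
    have h1 : τI ^ (p ^ k) = 1 := by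
      apply Subtype.ext
      apply AlgEquiv.ext
      intro x
      rw [← hτpow, h]
      rfl
    have h2 := orderOf_dvd_of_pow_eq_one h1
    rw [hτord, Nat.pow_dvd_pow_iff_le_right hp1] at h2
    omega
  refine ⟨τ ^ (p ^ k), ?_, hτ2, ?_, ?_, ?_, ?_⟩
  · intro c hc
    have : ∀ i : ℕ, (τ ^ i) c = c := by
      intro i
      induction i with
      | zero => simp
      | succ i ih => rw [pow_succ, AlgEquiv.mul_apply, hτK c hc, ih]
    exact this _
  · rw [← pow_mul, ← pow_succ, hτ1]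
  · rw [hmn]
    exact (pow_dvd_pow p han).mul_right m'
  · set σ : Gal(E/ℚ) := τ ^ (p ^ k) with hσ
    have hσv : σ (Z ^ (p ^ n)) = Z ^ (p ^ n) := by
      rw [hσ, hτpow]
      exact hvfix _ (τI ^ (p ^ k)).2
    obtain ⟨s, hs, hs4⟩ : ∃ s : ℕ, σ (Z ^ m') = (Z ^ m') ^ s ∧ (p = 2 → s ≡ 1 [MOD 4]) := by
      refine ⟨_, ?_, fun h2 => hJ4 h2 _ (pow_mem τJ.2 (p ^ k))⟩
      rw [hσ, hτpow]
      exact (hw.autToPow_spec K ((τI ^ (p ^ k) : I) : Gal(E/K))).symm
    have hit : ∀ i : ℕ, (σ ^ i) (Z ^ m') = (Z ^ m') ^ (s ^ i) := by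
      intro i
      induction i with
      | zero => simp
      | succ i ih => rw [pow_succ, AlgEquiv.mul_apply, hs, map_pow, ih, ← pow_mul, ← pow_succ]
    have h1 := hit p
    have hσp : σ ^ p = 1 := by rw [hσ, ← pow_mul, ← pow_succ, hτ1]
    rw [hσp, AlgEquiv.one_apply] at h1
    have h2 : s ^ p ≡ 1 [MOD p ^ n] := by
      apply modEq_of_pow_eq hw
      rw [pow_one]
      exact h1.symm
    have h3 := lte p n s hp (by omega) hs4 h2
    have h4 : (σ (Z ^ m')) ^ p = (Z ^ m') ^ p := by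
      rw [hs, ← pow_mul]
      exact pow_eq_of_modEq hw h3
    have h5 : σ Z = (Z ^ (p ^ n)) ^ u1 * (σ (Z ^ m')) ^ u2 := by
      conv_lhs => rw [hsplit]
      rw [map_mul, map_zpow₀, map_zpow₀, hσv]
    rw [map_pow, h5, mul_pow, ← zpow_natCast ((σ (Z ^ m')) ^ u2), ← zpow_mul, mul_comm u2,
      zpow_mul, zpow_natCast, h4]
    conv_rhs => rw [hsplit]
    rw [mul_pow, ← zpow_natCast ((Z ^ m') ^ u2), ← zpow_mul, mul_comm u2, zpow_mul, zpow_natCast]
  · intro c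
    apply cong_of_mem p a hp
    intro P hP hmem
    have h0 : ∀ c : 𝓞 E, τ • c - c ∈ P₀ := by
      intro c
      exact AddSubgroup.mem_inertia.1 τI.2 c
    have hcen := central K hZ htop hτK
    obtain ⟨g, rfl⟩ := exists_smul p hp P₀ P hmem₀ hmem
    have h1 : ∀ c : 𝓞 E, τ • c - c ∈ g • P₀ := by
      intro c
      rw [Ideal.mem_pointwise_smul_iff_inv_smul_mem]
      have h2 : g⁻¹ • (τ • c - c) = τ • g⁻¹ • c - g⁻¹ • c := by
        rw [smul_sub, ← mul_smul, ← mul_smul, hcen g⁻¹]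
      rw [h2]
      exact h0 _
    have h2 := wild_one p (k + 1) hp (g • P₀) hmem τ hτ1 h1
    have h3 := h2.iterate p _ hp (p_mem_pow p hp (g • P₀) hmem) k 0 c (by simp)
    rw [zero_add] at h3
    refine ⟨min (p ^ k) ((g • P₀).ramificationIdx ℤ), ?_, ?_⟩
    · have h4 := neg_mem h3
      rwa [neg_sub] at h4
    · have h4 := ramIdx_eq p hp (g • P₀) P₀ hmem hmem₀
      rw [← h4] at hek
      rcases le_total (p ^ k) ((g • P₀).ramificationIdx ℤ) with h5 | h5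
      · rw [min_eq_left h5]
        exact hek
      · rw [min_eq_right h5]
        exact Nat.le_mul_of_pos_right _ (pow_pos hp.pos a)

end

end Pool.Agent.helper69.SLG
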