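import Pool.Agent.helper69.SLG.Fin

set_option autoImplicit false

/-!
# Radicals over extensions of bounded degree of `N(μ_∞)` (helper69)
-/

namespace Pool.Agent.helper69.SLG

open NumberField Height Finset Module IntermediateField Polynomial
open Pool.Agent.helper79.SL Pool.Agent.helper69.SLR

lemma adjoin_primitive (K : IntermediateField ℚ ℂ) [FiniteDimensional ℚ K] :
    ∃ θ : ℂ, ℚ⟮θ⟯ = K := by
  obtain ⟨α, hα⟩ := Field.exists_primitive_element ℚ K
  exact ⟨α, (IntermediateField.lift_adjoin_simple ℚ K α).symm.trans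
    ((congrArg IntermediateField.lift hα).trans (IntermediateField.lift_top ℚ K))⟩

lemma kinf_isAlgebraic (N : IntermediateField ℚ ℂ) (hN : Normal ℚ N) {y : ℂ} (hy : y ∈ Kinf N) :
    IsAlgebraic ℚ y := by
  obtain ⟨K, _, hK, _, m, ζ, hm, hζ, h⟩ := mem_level N hN hy
  have h2 : IsIntegral ℚ ζ := (hζ.isIntegral hm).tower_top
  have h3 : FiniteDimensional ℚ ℚ⟮ζ⟯ := adjoin.finiteDimensional h2
  have h4 : FiniteDimensional ℚ (K ⊔ ℚ⟮ζ⟯ : IntermediateField ℚ ℂ) :=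
    IntermediateField.finiteDimensional_sup K ℚ⟮ζ⟯
  have h5 : IsAlgebraic ℚ (⟨y, h⟩ : (K ⊔ ℚ⟮ζ⟯ : IntermediateField ℚ ℂ)) :=
    Algebra.IsAlgebraic.isAlgebraic _
  exact h5.algebraMap (A := ℂ)

lemma kinf_alg (N : IntermediateField ℚ ℂ) (hN : Normal ℚ N) : Algebra.IsAlgebraic ℚ (Kinf N) :=
  ⟨fun y => (isAlgebraic_algebraMap_iff (algebraMap (Kinf N) ℂ).injective).1
    (kinf_isAlgebraic N hN y.2)⟩

end Pool.Agent.helper69.SLG
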