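import Pool.Agent.helper69.SLR.Cong

set_option autoImplicit false

/-!
# Prime power exponents (helper69)
-/

namespace Pool.Agent.helper69.SLG

open Finset Polynomial Pool.Agent.helper79.SL Pool.Agent.helper69.SLR

variable {O : Type*} [CommRing O]

/-- Powers of Frobenius are additive modulo `p B ^ (p ^ n)` on an ideal `B` -/
lemma add_pow_sub_mem (p n : ℕ) (hp : p.Prime) (B : Ideal O) {x y : O} (hx : x ∈ B) (hy : y ∈ B) :
    (x + y) ^ (p ^ n) - (x ^ (p ^ n) + y ^ (p ^ n)) ∈ Ideal.span {(p : O)} * B ^ (p ^ n) := by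
  have hpos : 0 < p ^ n := pow_pos hp.pos n
  obtain ⟨q, hq⟩ : ∃ q, p ^ n = q + 1 := ⟨p ^ n - 1, by omega⟩
  rw [hq]
  rw [add_pow, Finset.sum_range_succ, Finset.sum_range_succ']
  have e : ∑ k ∈ range q, x ^ (k + 1) * y ^ (q + 1 - (k + 1)) * ((q + 1).choose (k + 1) : O) +
      x ^ 0 * y ^ (q + 1 - 0) * ((q + 1).choose 0 : O) +
      x ^ (q + 1) * y ^ (q + 1 - (q + 1)) * ((q + 1).choose (q + 1) : O) -
      (x ^ (q + 1) + y ^ (q + 1)) =
      ∑ k ∈ range q, x ^ (k + 1) * y ^ (q + 1 - (k + 1)) * ((q + 1).choose (k + 1) : O) := by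
    simp only [pow_zero, one_mul, Nat.sub_zero, Nat.choose_zero_right, Nat.cast_one, mul_one,
      Nat.sub_self, Nat.choose_self]
    ring
  rw [e]
  refine sum_mem fun k hk => ?_
  rw [Finset.mem_range] at hk
  obtain ⟨c, hc⟩ := hp.dvd_choose_pow (n := n) (k := k + 1) (by omega) (by omega)
  rw [hq] at hc
  rw [hc]
  have h1 : x ^ (k + 1) * y ^ (q + 1 - (k + 1)) ∈ B ^ (q + 1) := by
    have h2 : B ^ (q + 1) = B ^ (k + 1) * B ^ (q + 1 - (k + 1)) := by
      rw [← pow_add]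
      congr 1
      omega
    rw [h2]
    exact Ideal.mul_mem_mul (Ideal.pow_mem_pow hx _) (Ideal.pow_mem_pow hy _)
  have h3 : x ^ (k + 1) * y ^ (q + 1 - (k + 1)) * ((p * c : ℕ) : O) =
      (p : O) * (x ^ (k + 1) * y ^ (q + 1 - (k + 1)) * c) := by
    push_cast
    ring
  rw [h3]
  exact Ideal.mul_mem_mul (Ideal.mem_span_singleton_self _) (Ideal.mul_mem_right _ _ h1)

lemma sum_pow_sub_mem (p n : ℕ) (hp : p.Prime) (B : Ideal O) {ι : Type*} (s : Finset ι)
    (x : ι → O) (hx : ∀ i ∈ s, x i ∈ B) :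
    (∑ i ∈ s, x i) ^ (p ^ n) - ∑ i ∈ s, x i ^ (p ^ n) ∈ Ideal.span {(p : O)} * B ^ (p ^ n) := by
  classical
  have hpos : p ^ n ≠ 0 := (pow_pos hp.pos n).ne'
  induction s using Finset.induction_on with
  | empty => simp [zero_pow hpos]
  | insert a s ha ih =>
    have hs : ∀ i ∈ s, x i ∈ B := fun i hi => hx i (Finset.mem_insert_of_mem hi)
    rw [Finset.sum_insert ha, Finset.sum_insert ha]
    have h1 := add_pow_sub_mem p n hp B (hx a (Finset.mem_insert_self a s)) (sum_mem hs)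
    have h2 := add_mem h1 (ih hs)
    convert h2 using 1
    ring

lemma sub_pow_sub_mem (p n : ℕ) (hp : p.Prime) (B : Ideal O) {x y : O}
    (hx : x ∈ B) (hy : y ∈ B) :
    (x ^ (p ^ n) - y ^ (p ^ n)) - (x - y) ^ (p ^ n) ∈ Ideal.span {(p : O)} * B ^ (p ^ n) := by
  have h1 := add_pow_sub_mem p n hp B (sub_mem hx hy) hy
  rw [sub_add_cancel] at h1
  convert h1 using 1
  ring

end Pool.Agent.helper69.SLG
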